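import Pool.Agent.U281.NP.Vrs
import Pool.Agent.W792.WA.All2

/-!
The variance of `cay` is positive for every law which is not a point mass.
-/

set_option autoImplicit false

namespace Pool.Agent.U281.GEN

open MeasureTheory Filter Pool.Agent.W792.LL Pool.Agent.W792.WA

noncomputable section

theorem vr_pos (ν : Measure ℝ) [IsProbabilityMeasure ν] (h : ∀ a : ℝ, ν {a} < 1) : 0 < vr ν := by
  have hcont : Continuous fun p : ℝ × ℝ =>
      (p.1 - p.2) ^ 2 / ((1 + p.1 ^ 2) * (1 + p.2 ^ 2)) := by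
    refine ((continuous_fst.sub continuous_snd).pow 2).div (by fun_prop) fun p => ?_
    positivity
  have key : 0 < ∫ p : ℝ × ℝ, (p.1 - p.2) ^ 2 / ((1 + p.1 ^ 2) * (1 + p.2 ^ 2)) ∂(ν.prod ν) := by
    rw [integral_pos_iff_support_of_nonneg (fun p => by positivity)]
    · rw [pos_iff_ne_zero]
      intro h0
      have hs : Function.support (fun p : ℝ × ℝ =>
          (p.1 - p.2) ^ 2 / ((1 + p.1 ^ 2) * (1 + p.2 ^ 2))) = {p : ℝ × ℝ | p.1 ≠ p.2} := by
        ext p
        rw [Function.mem_support]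
        change _ ↔ p.1 ≠ p.2
        have hp : 0 < (1 + p.1 ^ 2) * (1 + p.2 ^ 2) := by positivity
        rw [ne_eq, div_eq_zero_iff, not_or]
        constructor
        · rintro ⟨h1, -⟩ h2
          exact h1 (by rw [h2]; ring)
        · intro h1
          exact ⟨pow_ne_zero 2 (sub_ne_zero.2 h1), hp.ne'⟩
      rw [hs] at h0
      have hm : MeasurableSet {p : ℝ × ℝ | p.1 ≠ p.2} :=
        (measurableSet_eq_fun measurable_fst measurable_snd).compl
      rw [Measure.measure_prod_null hm] at h0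
      obtain ⟨x, hx⟩ := h0.exists
      have h2 : ν {x}ᶜ = 0 := by
        have e : (Prod.mk x ⁻¹' {p : ℝ × ℝ | p.1 ≠ p.2}) = {x}ᶜ := by
          ext y
          change x ≠ y ↔ y ≠ x
          exact ne_comm
        rw [← e]
        exact hx
      have h3 : ν {x} = 1 := by
        rw [prob_compl_eq_zero_iff (measurableSet_singleton x)] at h2
        exact h2
      exact absurd h3 (h x).ne
    · refine Integrable.of_bound hcont.aestronglyMeasurable 4 (ae_of_all _ fun p => ?_)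
      have h1 := Pool.Agent.U281.NP.Vrs.cay_sub p.1 p.2
      have h2 := norm_sub_le (cay p.1) (cay p.2)
      rw [Al.cay.1, Al.cay.1] at h2
      rw [Real.norm_of_nonneg (by positivity)]
      have h3 : 4 * (p.1 - p.2) ^ 2 / ((1 + p.1 ^ 2) * (1 + p.2 ^ 2))
          = 4 * ((p.1 - p.2) ^ 2 / ((1 + p.1 ^ 2) * (1 + p.2 ^ 2))) := by ring
      rw [h3] at h1
      nlinarith [norm_nonneg (cay p.1 - cay p.2)]
  rw [Pool.Agent.U281.NP.Vrs.vr_eq Al.cay]
  simp_rw [Pool.Agent.U281.NP.Vrs.cay_sub]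
  have : ∀ p : ℝ × ℝ, 4 * (p.1 - p.2) ^ 2 / ((1 + p.1 ^ 2) * (1 + p.2 ^ 2))
      = 4 * ((p.1 - p.2) ^ 2 / ((1 + p.1 ^ 2) * (1 + p.2 ^ 2))) := fun p => by ring
  simp_rw [this]
  rw [integral_const_mul]
  linarith

theorem vr_map {ν : Measure ℝ} [IsProbabilityMeasure ν] (h : ∀ a : ℝ, ν {a} < 1) {lam : ℝ}
    (hl : lam ≠ 0) : 0 < vr (ν.map fun x => lam * x) := by
  have h1 := vr_pos ν h
  have h2 := Pool.Agent.U281.NP.Vrs.main' Al.cay ν lam hl
  have h3 : 0 < min (lam ^ 2) (1 / lam ^ 2) := by positivity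
  exact (mul_pos h3 h1).trans_le h2

end

end Pool.Agent.U281.GEN
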