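import Pool.Agent.U281.GEN.Core
import Pool.Agent.W156.WAFin

/-!
Eigenfunctions and spectral measures in terms of the Green function on the grid.
-/

set_option autoImplicit false

namespace Pool.Agent.U281.GEN

open MeasureTheory Filter Pool.Agent.W792.LL Pool.Agent.W792.WA Pool.Agent.W19.WAPsi
open scoped Topology

noncomputable section

variable {d : ℕ}

/-- A square summable function as a vector. -/
def tol2 (u : (Fin d → ℤ) → ℂ) (h : Summable fun x => ‖u x‖ ^ 2) : l2 (Fin d → ℤ) :=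
  ⟨u, (memℓp_gen_iff (by norm_num)).2 (by simpa using h)⟩

theorem T_apply (hO : S_OPR) (K : C(UnitAddTorus (Fin d), ℝ)) (U : l2 (Fin d → ℤ))
    (x : Fin d → ℤ) : opr (cR K) U x = ∑' y, hopK K (x - y) * U y := by
  have h := ((hO d (cR K) (cR K)).1 U x).2
  have e : (fun k => cR K k) = fun k => (K k : ℂ) := funext fun k => cR_apply K k
  rw [h]
  unfold hopK
  rw [← e]

theorem T_symm (hS : S_SYMB) (K : C(UnitAddTorus (Fin d), ℝ)) (A B : l2 (Fin d → ℤ)) :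
    (inner ℂ (opr (cR K) A) B : ℂ) = inner ℂ A (opr (cR K) B) := by
  rw [inn1 hS]
  congr 2
  have : star (cR K) = cR K := by
    ext k
    change (starRingEnd ℂ) (cR K k) = cR K k
    rw [cR_apply, Complex.conj_ofReal]
  rw [this]

/-- Symmetry of the operator on solutions. -/
theorem symm_sol (hS : S_SYMB) (K : C(UnitAddTorus (Fin d), ℝ)) (v : (Fin d → ℤ) → ℝ)
    (A B : l2 (Fin d → ℤ)) (a b α β : ℂ)
    (hA : ∀ x, v x * A x = (a • A + α • dl 0 - opr (cR K) A : l2 (Fin d → ℤ)) x)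
    (hB : ∀ x, v x * B x = (b • B + β • dl 0 - opr (cR K) B : l2 (Fin d → ℤ)) x) :
    b * inner ℂ A B + β * (starRingEnd ℂ) (A 0)
      = (starRingEnd ℂ) a * inner ℂ A B + (starRingEnd ℂ) α * B 0 := by
  have h1 : (inner ℂ A (b • B + β • dl 0 - opr (cR K) B) : ℂ)
      = inner ℂ (a • A + α • dl 0 - opr (cR K) A) B := by
    rw [lp.inner_eq_tsum, lp.inner_eq_tsum]
    refine tsum_congr fun x => ?_
    rw [← hA x, ← hB x]
    simp only [RCLike.inner_apply, map_mul, Complex.conj_ofReal]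
    ring
  have e0 : (inner ℂ (dl 0) B : ℂ) = B 0 := (coord_inner 0 B).symm
  have e1 : (inner ℂ A (dl 0) : ℂ) = (starRingEnd ℂ) (A 0) := by
    rw [← inner_conj_symm, coord_inner 0 A]
    rfl
  rw [inner_sub_right, inner_sub_left, inner_add_right, inner_add_left, inner_smul_right,
    inner_smul_right, inner_smul_left, inner_smul_left, T_symm hS, e0, e1] at h1
  linear_combination h1

/-- The solution of the resolvent equation. -/
theorem green_w (K : C(UnitAddTorus (Fin d), ℝ)) (v : (Fin d → ℤ) → ℝ) {z : ℂ} (hz : 0 < z.im) :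
    ∃ W : l2 (Fin d → ℤ), (∀ x, v x * W x = (z • W + (1 : ℂ) • dl 0 - opr (cR K) W
      : l2 (Fin d → ℤ)) x) ∧ W 0 = gz (us (Measure.dirac 0) 1 z K) v := by
  obtain ⟨⟨w, hw⟩, h2⟩ := Pool.Agent.W156.WAFin.hG d K 1 one_pos v z hz
  have h3 := h2 w hw
  obtain ⟨hs, he⟩ := hw
  refine ⟨tol2 w hs, fun x => ?_, ?_⟩
  · have h4 := he x
    have e1 : (z • tol2 w hs + (1 : ℂ) • dl 0 - opr (cR K) (tol2 w hs) : l2 (Fin d → ℤ)) x
        = z * w x + (dl 0 : l2 (Fin d → ℤ)) x - opr (cR K) (tol2 w hs) x := by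
      simp only [one_smul, lp.coeFn_sub, lp.coeFn_add, lp.coeFn_smul, Pi.sub_apply, Pi.add_apply,
        Pi.smul_apply, smul_eq_mul]
      rfl
    have e2 : (dl 0 : l2 (Fin d → ℤ)) x = if x = 0 then 1 else 0 := by
      unfold dl
      by_cases hx : x = 0
      · subst hx; simp
      · simp [hx]
    rw [e1, e2, T_apply Pool.Agent.W918.LL.main, ← h4]
    change (v x : ℂ) * w x = z * w x + (∑' y', hopK K (x - y') * w y'
      + ((1 * v x : ℝ) : ℂ) * w x - z * w x) - ∑' y, hopK K (x - y) * w y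
    push_cast
    ring
  · change w 0 = _
    rw [h3]
    unfold gf gz
    norm_num

/-- Eigenfunctions give large values of the Green function. -/
theorem eig_bound (hS : S_SYMB) (K : C(UnitAddTorus (Fin d), ℝ)) (v : (Fin d → ℤ) → ℝ) (E : ℝ)
    (u : (Fin d → ℤ) → ℂ) (hu : Summable fun x => ‖u x‖ ^ 2)
    (he : ∀ x, ∑' y, hopK K (x - y) * u y + (v x : ℂ) * u x = (E : ℂ) * u x) {z : ℂ}
    (hz : 0 < z.im) :
    ‖u 0‖ ^ 2 * z.im ≤ ‖(E : ℂ) - z‖ ^ 2 * ‖tol2 u hu‖ ^ 2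
      * ‖gz (us (Measure.dirac 0) 1 z K) v‖ := by
  obtain ⟨W, hW, hW0⟩ := green_w K v hz
  obtain ⟨U, hU⟩ : ∃ U, U = tol2 u hu := ⟨_, rfl⟩
  have hU0 : ∀ x, U x = u x := fun x => by rw [hU]; rfl
  have hUe : ∀ x, v x * U x = ((E : ℂ) • U + (0 : ℂ) • dl 0 - opr (cR K) U
      : l2 (Fin d → ℤ)) x := by
    intro x
    have e1 : ((E : ℂ) • U + (0 : ℂ) • dl 0 - opr (cR K) U : l2 (Fin d → ℤ)) x
        = (E : ℂ) * U x - opr (cR K) U x := by
      simp only [zero_smul, add_zero, lp.coeFn_sub, lp.coeFn_smul, Pi.sub_apply,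
        Pi.smul_apply, smul_eq_mul]
    rw [e1, T_apply Pool.Agent.W918.LL.main]
    simp only [hU0]
    rw [← he x]
    ring
  have h1 := symm_sol hS K v U W E z 0 1 hUe hW
  rw [Complex.conj_ofReal, map_zero, zero_mul, add_zero, one_mul] at h1
  have h2 := symm_sol hS K v W W z z 1 1 hW hW
  rw [map_one, one_mul, one_mul, inn_self] at h2
  have h3 : (W 0).im = z.im * ‖W‖ ^ 2 := by
    have := congrArg Complex.im h2
    rw [Complex.add_im, Complex.add_im, Complex.im_mul_ofReal, Complex.im_mul_ofReal,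
      Complex.conj_im, Complex.conj_im] at this
    linarith
  have h4 : (starRingEnd ℂ) (U 0) = ((E : ℂ) - z) * inner ℂ U W := by linear_combination h1
  have h5 : ‖u 0‖ ≤ ‖(E : ℂ) - z‖ * (‖U‖ * ‖W‖) := by
    have := congrArg norm h4
    rw [RCLike.norm_conj, norm_mul, hU0] at this
    rw [this]
    exact mul_le_mul_of_nonneg_left (norm_inner_le_norm U W) (norm_nonneg _)
  have h6 : ‖W‖ ^ 2 * z.im ≤ ‖gz (us (Measure.dirac 0) 1 z K) v‖ := by
    rw [← hW0, mul_comm, ← h3]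
    exact (le_abs_self _).trans (Complex.abs_im_le_norm _)
  rw [← hU]
  calc ‖u 0‖ ^ 2 * z.im ≤ (‖(E : ℂ) - z‖ * (‖U‖ * ‖W‖)) ^ 2 * z.im :=
        mul_le_mul_of_nonneg_right (pow_le_pow_left₀ (norm_nonneg _) h5 2) hz.le
    _ = ‖(E : ℂ) - z‖ ^ 2 * ‖U‖ ^ 2 * (‖W‖ ^ 2 * z.im) := by ring
    _ ≤ _ := mul_le_mul_of_nonneg_left h6 (by positivity)

/-- The grid sum of the Green function. -/
def Ph (n m : ℕ) (K : C(UnitAddTorus (Fin d), ℝ)) (v : (Fin d → ℤ) → ℝ) : ℝ :=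
  1 / m * ∑ j ∈ Finset.Icc (-((n * m : ℕ) : ℤ)) ((n * m : ℕ) : ℤ),
    ‖gz (us (Measure.dirac 0) 1 (zz j m) K) v‖ ^ 2

theorem Ph_nonneg (n m : ℕ) (K : C(UnitAddTorus (Fin d), ℝ)) (v : (Fin d → ℤ) → ℝ) :
    0 ≤ Ph n m K v := by
  unfold Ph
  positivity

theorem floor_grid {n m : ℕ} (hm : 1 ≤ m) {E : ℝ} (hE : |E| ≤ n) :
    ⌊E * m⌋ ∈ Finset.Icc (-((n * m : ℕ) : ℤ)) ((n * m : ℕ) : ℤ) ∧
      ((⌊E * m⌋ : ℤ) : ℝ) / m ≤ E ∧ E ≤ ((⌊E * m⌋ : ℤ) : ℝ) / m + 1 / m := by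
  have hm' : (1 : ℝ) ≤ m := by exact_mod_cast hm
  have hm0 : (0 : ℝ) < m := by linarith
  rw [abs_le] at hE
  refine ⟨Finset.mem_Icc.2 ⟨?_, ?_⟩, ?_, ?_⟩
  · rw [Int.le_floor]
    push_cast
    nlinarith
  · have : (⌊E * m⌋ : ℝ) ≤ (((n * m : ℕ) : ℤ) : ℝ) := by
      refine (Int.floor_le _).trans ?_
      push_cast
      nlinarith
    exact_mod_cast this
  · rw [div_le_iff₀ hm0]
    exact Int.floor_le _
  · rw [← add_div, le_div_iff₀ hm0]
    exact (Int.lt_floor_add_one _).le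

/-- Eigenfunctions make the grid sum large. -/
theorem eig_grid (hS : S_SYMB) (K : C(UnitAddTorus (Fin d), ℝ)) (v : (Fin d → ℤ) → ℝ) (E : ℝ)
    (u : (Fin d → ℤ) → ℂ) (hu : Summable fun x => ‖u x‖ ^ 2)
    (he : ∀ x, ∑' y, hopK K (x - y) * u y + (v x : ℂ) * u x = (E : ℂ) * u x) (hu0 : u 0 ≠ 0) :
    ∃ b : ℝ, 0 < b ∧ ∀ n m : ℕ, 1 ≤ m → |E| ≤ n → b * m ≤ Ph n m K v := by
  obtain ⟨N, hN⟩ : ∃ N, N = ‖tol2 u hu‖ := ⟨_, rfl⟩
  have hNu : ‖u 0‖ ≤ N := by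
    rw [hN]
    exact lp.norm_apply_le_norm (by norm_num) (tol2 u hu) 0
  have hu' : 0 < ‖u 0‖ := norm_pos_iff.2 hu0
  have hN0 : 0 < N := hu'.trans_le hNu
  refine ⟨(‖u 0‖ ^ 2 / (2 * N ^ 2)) ^ 2, by positivity, fun n m hm hE => ?_⟩
  have hm' : (1 : ℝ) ≤ m := by exact_mod_cast hm
  have hm0 : (0 : ℝ) < m := by linarith
  obtain ⟨h1, h2, h3⟩ := floor_grid hm hE
  obtain ⟨j, hj⟩ : ∃ j, j = ⌊E * m⌋ := ⟨_, rfl⟩
  rw [← hj] at h1 h2 h3
  have h4 := eig_bound hS K v E u hu he (zz_im hm j)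
  rw [← hN] at h4
  have h5 : ‖(E : ℂ) - zz j m‖ ^ 2 ≤ 2 / m ^ 2 := by
    rw [Complex.sq_norm, Complex.normSq_apply]
    have e1 : ((E : ℂ) - zz j m).re = E - j / m := rfl
    have e2 : ((E : ℂ) - zz j m).im = 0 - 1 / m := rfl
    rw [e1, e2]
    have e3 : 0 ≤ E - j / m := by linarith
    have e4 : E - j / m ≤ 1 / m := by linarith
    have e5 : (2 : ℝ) / m ^ 2 = 1 / m * (1 / m) + 1 / m * (1 / m) := by
      field_simp
      ring
    rw [e5]
    nlinarith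
  have h6 : (zz j m).im = 1 / m := rfl
  obtain ⟨g, hg⟩ : ∃ g, g = ‖gz (us (Measure.dirac 0) 1 (zz j m) K) v‖ := ⟨_, rfl⟩
  rw [← hg, h6] at h4
  have hg0 : 0 ≤ g := by rw [hg]; exact norm_nonneg _
  have h7 : ‖u 0‖ ^ 2 / (2 * N ^ 2) * m ≤ g := by
    have e1 : ‖u 0‖ ^ 2 * (1 / m) ≤ 2 / m ^ 2 * N ^ 2 * g :=
      h4.trans (mul_le_mul_of_nonneg_right (mul_le_mul_of_nonneg_right h5 (by positivity)) hg0)
    have e2 : ‖u 0‖ ^ 2 / (2 * N ^ 2) * m = (‖u 0‖ ^ 2 * (1 / m)) * (m ^ 2 / (2 * N ^ 2)) := by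
      field_simp
    have e3 : 2 / (m : ℝ) ^ 2 * N ^ 2 * g * (m ^ 2 / (2 * N ^ 2)) = g := by
      field_simp
    rw [e2, ← e3]
    exact mul_le_mul_of_nonneg_right e1 (by positivity)
  have h8 : (‖u 0‖ ^ 2 / (2 * N ^ 2) * m) ^ 2 ≤ g ^ 2 := pow_le_pow_left₀ (by positivity) h7 2
  unfold Ph
  have h9 : g ^ 2 ≤ ∑ j ∈ Finset.Icc (-((n * m : ℕ) : ℤ)) ((n * m : ℕ) : ℤ),
      ‖gz (us (Measure.dirac 0) 1 (zz j m) K) v‖ ^ 2 := by
    rw [hg]
    exact Finset.single_le_sum (f := fun j => ‖gz (us (Measure.dirac 0) 1 (zz j m) K) v‖ ^ 2)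
      (fun i _ => by positivity) h1
  calc (‖u 0‖ ^ 2 / (2 * N ^ 2)) ^ 2 * m = 1 / m * (‖u 0‖ ^ 2 / (2 * N ^ 2) * m) ^ 2 := by
        field_simp
    _ ≤ 1 / m * g ^ 2 := mul_le_mul_of_nonneg_left h8 (by positivity)
    _ ≤ _ := mul_le_mul_of_nonneg_left h9 (by positivity)

/-- The grid cells. -/
def cell (j : ℤ) (m : ℕ) : Set ℝ := Set.Icc (((j : ℝ) - 1) / m) (((j : ℝ) + 1) / m)

/-- Mass of a cell in terms of the Stieltjes transform. -/
theorem cell_le (μ : Measure ℝ) [IsFiniteMeasure μ] (j : ℤ) {m : ℕ} (hm : 1 ≤ m) :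
    (m : ℝ) / 2 * μ.real (cell j m) ≤ ‖∫ E : ℝ, 1 / ((E : ℂ) - zz j m) ∂μ‖ := by
  have hm' : (1 : ℝ) ≤ m := by exact_mod_cast hm
  have hm0 : (0 : ℝ) < m := by linarith
  have hne : ∀ E : ℝ, (E : ℂ) - zz j m ≠ 0 := by
    intro E h
    have := congrArg Complex.im h
    have e : ((E : ℂ) - zz j m).im = 0 - 1 / m := rfl
    rw [e, Complex.zero_im] at this
    have : (0 : ℝ) < 1 / m := by positivity
    linarith
  have him : ∀ E : ℝ, (1 / ((E : ℂ) - zz j m)).im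
      = (1 / m) / ((E - j / m) ^ 2 + (1 / m) ^ 2) := by
    intro E
    rw [one_div, Complex.inv_im, Complex.normSq_apply]
    have e1 : ((E : ℂ) - zz j m).re = E - j / m := rfl
    have e2 : ((E : ℂ) - zz j m).im = 0 - 1 / m := rfl
    rw [e1, e2]
    ring
  have hcont : Continuous fun E : ℝ => 1 / ((E : ℂ) - zz j m) :=
    continuous_const.div (by fun_prop) hne
  have hbd : ∀ E : ℝ, ‖1 / ((E : ℂ) - zz j m)‖ ≤ m := by
    intro E
    rw [norm_div, norm_one, div_le_iff₀ (norm_pos_iff.2 (hne E))]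
    have h1 := Complex.abs_im_le_norm ((E : ℂ) - zz j m)
    have e2 : ((E : ℂ) - zz j m).im = 0 - 1 / m := rfl
    rw [e2, zero_sub, abs_neg, abs_of_pos (by positivity : (0 : ℝ) < 1 / m)] at h1
    have h2 := mul_le_mul_of_nonneg_left h1 hm0.le
    have h3 : (m : ℝ) * (1 / m) = 1 := by field_simp
    linarith
  have hi : Integrable (fun E : ℝ => 1 / ((E : ℂ) - zz j m)) μ :=
    Integrable.of_bound hcont.aestronglyMeasurable m (ae_of_all _ hbd)
  have h1 : (∫ E : ℝ, 1 / ((E : ℂ) - zz j m) ∂μ).im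
      = ∫ E : ℝ, (1 / m) / ((E - j / m) ^ 2 + (1 / m) ^ 2) ∂μ := by
    rw [← im_int hi]
    exact integral_congr_ae (ae_of_all _ him)
  have hi2 : Integrable (fun E : ℝ => (1 / (m : ℝ)) / ((E - j / m) ^ 2 + (1 / m) ^ 2)) μ := by
    refine hi.im.congr (ae_of_all _ fun E => ?_)
    exact him E
  have hcm : MeasurableSet (cell j m) := measurableSet_Icc
  have h2 : (m : ℝ) / 2 * μ.real (cell j m)
      ≤ ∫ E : ℝ, (1 / m) / ((E - j / m) ^ 2 + (1 / m) ^ 2) ∂μ := by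
    have e1 : (m : ℝ) / 2 * μ.real (cell j m)
        = ∫ E, (cell j m).indicator (fun _ => (m : ℝ) / 2) E ∂μ := by
      rw [integral_indicator_const _ hcm, smul_eq_mul, mul_comm]
    rw [e1]
    refine integral_mono ((integrable_const _).indicator hcm) hi2 fun E => ?_
    by_cases hE : E ∈ cell j m
    · rw [Set.indicator_of_mem hE]
      have h3 : (E - j / m) ^ 2 ≤ (1 / m) ^ 2 := by
        rw [sq_le_sq, abs_of_pos (by positivity : (0 : ℝ) < 1 / m), abs_le]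
        have a1 : ((j : ℝ) - 1) / m ≤ E := hE.1
        have a2 : E ≤ ((j : ℝ) + 1) / m := hE.2
        rw [sub_div] at a1
        rw [add_div] at a2
        constructor <;> linarith
      have h4 : (m : ℝ) / 2 = (1 / m) / ((1 / m) ^ 2 + (1 / m) ^ 2) := by
        field_simp
        ring
      rw [h4]
      apply div_le_div_of_nonneg_left (by positivity) (by positivity)
      linarith
    · rw [Set.indicator_of_notMem hE]
      positivity
  rw [← h1] at h2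
  exact h2.trans ((le_abs_self _).trans (Complex.abs_im_le_norm _))

/-- The grid sum bounds the correlation sum of the spectral measure. -/
theorem corr_le (K : C(UnitAddTorus (Fin d), ℝ)) (v : (Fin d → ℤ) → ℝ) (μ : Measure ℝ)
    [IsFiniteMeasure μ] (hμ : ∀ z : ℂ, 0 < z.im → (∃ w, Sol (hopK K) 1 v z 0 w) ∧
      ∀ w, Sol (hopK K) 1 v z 0 w → w 0 = ∫ E : ℝ, 1 / ((E : ℂ) - z) ∂μ) (n : ℕ) {m : ℕ}
    (hm : 1 ≤ m) :
    (m : ℝ) * ∑ j ∈ Finset.Icc (-((n * m : ℕ) : ℤ)) ((n * m : ℕ) : ℤ), μ.real (cell j m) ^ 2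
      ≤ 4 * Ph n m K v := by
  have hm' : (1 : ℝ) ≤ m := by exact_mod_cast hm
  have hm0 : (0 : ℝ) < m := by linarith
  have h1 : ∀ j : ℤ, ∫ E : ℝ, 1 / ((E : ℂ) - zz j m) ∂μ
      = gz (us (Measure.dirac 0) 1 (zz j m) K) v := by
    intro j
    obtain ⟨⟨w, hw⟩, h2⟩ := hμ (zz j m) (zz_im hm j)
    rw [← h2 w hw, (Pool.Agent.W156.WAFin.hG d K 1 one_pos v (zz j m) (zz_im hm j)).2 w hw]
    unfold gf gz
    norm_num
  have h2 : ∀ j ∈ Finset.Icc (-((n * m : ℕ) : ℤ)) ((n * m : ℕ) : ℤ),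
      μ.real (cell j m) ^ 2
        ≤ 4 / m ^ 2 * ‖gz (us (Measure.dirac 0) 1 (zz j m) K) v‖ ^ 2 := by
    intro j _
    have h3 := cell_le μ j hm
    rw [h1 j] at h3
    have h4 := pow_le_pow_left₀ (by positivity) h3 2
    have h5 : μ.real (cell j m) ^ 2 = 4 / m ^ 2 * ((m : ℝ) / 2 * μ.real (cell j m)) ^ 2 := by
      field_simp
      ring
    rw [h5]
    exact mul_le_mul_of_nonneg_left h4 (by positivity)
  have h3 := Finset.sum_le_sum h2
  rw [← Finset.mul_sum] at h3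
  unfold Ph
  calc (m : ℝ) * ∑ j ∈ Finset.Icc (-((n * m : ℕ) : ℤ)) ((n * m : ℕ) : ℤ), μ.real (cell j m) ^ 2
      ≤ m * (4 / m ^ 2 * ∑ j ∈ Finset.Icc (-((n * m : ℕ) : ℤ)) ((n * m : ℕ) : ℤ),
          ‖gz (us (Measure.dirac 0) 1 (zz j m) K) v‖ ^ 2) :=
        mul_le_mul_of_nonneg_left h3 hm0.le
    _ = _ := by
      field_simp

end

end Pool.Agent.U281.GEN
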