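import Pool.Agent.U281.GEN.Lip

/-!
Adding one fast level makes the mean square of the Green function bounded on a grid of energies,
uniformly in the law.
-/

set_option autoImplicit false

namespace Pool.Agent.U281.GEN

open MeasureTheory Filter Pool.Agent.W792.LL Pool.Agent.W792.WA Pool.Agent.W19.WAPsi
open scoped Topology

noncomputable section

variable {d : ℕ}

theorem us_le (hX : S_CX) {K : C(UnitAddTorus (Fin d), ℝ)} {z : ℂ} (hz : 0 ≤ z.im) {q : ℝ}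
    (hq0 : 0 ≤ q) (hq : ∀ k, ‖cayx ((K k : ℂ) - z) 0‖ ≤ q) :
    ‖us (Measure.dirac 0) 1 z K‖ ≤ q := by
  refine (ContinuousMap.norm_le _ hq0).2 fun k => ?_
  rw [Ch.us_dirac hX K hz k]
  exact hq k

theorem us_lip (hX : S_CX) (K K' : C(UnitAddTorus (Fin d), ℝ)) {z : ℂ} (hz : 0 ≤ z.im) :
    ‖us (Measure.dirac 0) 1 z K - us (Measure.dirac 0) 1 z K'‖ ≤ 2 * ‖K - K'‖ := by
  refine (ContinuousMap.norm_le _ (by positivity)).2 fun k => ?_
  have e : (us (Measure.dirac 0) 1 z K - us (Measure.dirac 0) 1 z K') k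
      = us (Measure.dirac 0) 1 z K k - us (Measure.dirac 0) 1 z K' k := rfl
  rw [e, Ch.us_dirac hX K hz k, Ch.us_dirac hX K' hz k]
  have h1 := hX.2.1 ((K k : ℂ) - z) ((K' k : ℂ) - z) 0 0 (by simpa using hz) (by simpa using hz)
  have h2 : (K k : ℂ) - z - ((K' k : ℂ) - z) = ((K k - K' k : ℝ) : ℂ) := by push_cast; ring
  rw [h2, Complex.norm_real, sub_self, abs_zero, add_zero] at h1
  have h3 : ‖K k - K' k‖ ≤ ‖K - K'‖ := (K - K').norm_coe_le_norm k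
  linarith

/-- One level realizes the effective medium. -/
theorem lvl (hSC1 : S_SC1) (hX : S_CX) (hUU : S_UUC) (hFIX : S_FIX) (hC1 : S_C1)
    (ν : Measure ℝ) [IsProbabilityMeasure ν] (hv : 0 < vr ν) {ψ : C(UnitAddCircle, ℝ)}
    (hψ : IsSemi ψ) {r : ℝ} (hr : 0 < r) (hd : 0 < d) (K : C(UnitAddTorus (Fin d), ℝ)) {z : ℂ}
    (hz : 0 < z.im) {q : ℝ} (hq0 : 0 ≤ q) (hq1 : q < 1)
    (hq : ∀ (x : ℂ) (a : ℝ), ‖x‖ ≤ ‖K‖ + r + ‖z‖ → x.im ≤ -z.im → |a| ≤ r → ‖cayx x a‖ ≤ q) :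
    ∃ s, IsFix ν (lev ψ r) (wz K z) s ∧ ‖UU (lev ψ r) (wz K z) s‖ ≤ q ∧
      ∀ e : ℝ, 0 < e → ∀ᶠ M : ℕ in atTop,
        ∫ v, ‖Zf (us (Measure.dirac 0) 1 z (addL ψ K r M)) (fun x => cay (v x))
          - Zf (UU (lev ψ r) (wz K z) s) (fun x => cay (v x))‖ ∂(Pn ν (Fin d → ℤ)) ≤ e := by
  have := Pool.Agent.W685.WA.Step.prob_lev ψ r
  have hsupp : (lev ψ r) (Set.Icc (-r) r)ᶜ = 0 := by
    have := Pool.Agent.W685.WA.Step.lev_supp hψ hr
    rw [ae_iff] at this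
    refine measure_mono_null (fun a ha => ?_) this
    intro h
    exact ha (abs_le.1 h)
  have hxn : ∀ k, ‖(K k : ℂ) - z‖ ≤ ‖K‖ + r + ‖z‖ := fun k =>
    (norm_sub_le _ _).trans (by
      rw [Complex.norm_real]
      linarith [K.norm_coe_le_norm k])
  have hxi : ∀ k, ((K k : ℂ) - z).im = -z.im := fun k => by simp
  have hw : ∀ k, ∀ a ∈ Set.Icc (-r) r, ‖wz K z k a‖ ≤ q := fun k a ha =>
    hq _ a (hxn k) (hxi k).le (abs_le.2 ha)
  have hc := hX.2.2.2 d K z hz.le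
  obtain ⟨s, hs, -⟩ := (hFIX ν d (lev ψ r) r q (wz K z) hv hsupp hc hq0 hq1 hw).1
  have hs1 : ‖s‖ ≤ 1 := hs.1
  obtain ⟨u1, u2⟩ := hUU d (lev ψ r) r q (wz K z) s hsupp hc hq0 hq1.le hw hs1
    (by nlinarith [norm_nonneg s])
  refine ⟨s, hs, u2, fun e he => ?_⟩
  have hψa : ∀ φ, |r * ψ φ| ≤ r := by
    intro φ
    rw [abs_mul, abs_of_pos hr]
    nlinarith [hψ.bound φ]
  let W : C(UnitAddTorus (Fin d) × UnitAddCircle, ℂ) :=
    ⟨fun p => wz K z p.1 (r * ψ p.2), hc.comp (continuous_fst.prodMk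
      (continuous_const.mul (ψ.continuous.comp continuous_snd)))⟩
  have hW : ‖W‖ ≤ q := (ContinuousMap.norm_le _ hq0).2 fun p => hw p.1 _ (abs_le.1 (hψa p.2))
  have hsk : ∀ k, ‖s k‖ ≤ 1 := fun k => (s.norm_coe_le_norm k).trans hs1
  have key : ∀ k, UU (lev ψ r) (wz K z) s k / (1 - UU (lev ψ r) (wz K z) s k * s k)
      = ∫ φ in Set.Ioc (0 : ℝ) 1, W (k, (φ : UnitAddCircle))
        / (1 - W (k, φ) * s k) := by
    intro k
    obtain ⟨-, -, -, -, b5⟩ := hSC1 (lev ψ r) (wz K z k) q (s k)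
      (Pool.Agent.W685.WA.Step.meas_cayx _) hq0 hq1.le
      (by
        have : ∀ᵐ a ∂(lev ψ r), a ∈ Set.Icc (-r) r := by rw [ae_iff]; exact hsupp
        filter_upwards [this] with a ha
        exact hw k a ha) (hsk k) (by nlinarith [norm_nonneg (s k), hsk k])
    rw [u1 k, b5]
    have hwm : Measurable (wz K z k) := Pool.Agent.W685.WA.Step.meas_cayx _
    exact lev_integral ψ r (f := fun a => wz K z k a / (1 - wz K z k a * s k))
      (hwm.div (measurable_const.sub (hwm.mul_const _)))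
  obtain ⟨M₀, hM₀⟩ := hC1 ν d hd hv q W s (UU (lev ψ r) (wz K z) s) hq1 hW u2 hs1 hs.2 key e he
  refine eventually_atTop.2 ⟨M₀, fun M hM => ?_⟩
  have hWM : us (Measure.dirac 0) 1 z (addL ψ K r M) = WM W M := by
    ext k
    rw [Ch.us_dirac hX _ hz.le k, Pool.Agent.W685.WA.Step.WM_apply]
    change cayx (((K k + r * ψ ((M * lap d k / (2 * Real.pi) : ℝ) : UnitAddCircle) : ℝ) : ℂ) - z) 0
      = cayx ((K k : ℂ) - z) (r * ψ ((M * lap d k / (2 * Real.pi) : ℝ) : UnitAddCircle))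
    unfold cayx
    push_cast
    congr 1 <;> ring
  rw [hWM]
  exact (hM₀ M hM).2

/-- The grid of energies. -/
def zz (j : ℤ) (m : ℕ) : ℂ := ⟨j / m, 1 / m⟩

/-- The grid sum of the mean square of the Green function. -/
def Fm (n m : ℕ) (K : C(UnitAddTorus (Fin d), ℝ)) (ν : Measure ℝ) [IsProbabilityMeasure ν] : ℝ :=
  1 / m * ∑ j ∈ Finset.Icc (-((n * m : ℕ) : ℤ)) ((n * m : ℕ) : ℤ),
    E2 ν (us (Measure.dirac 0) 1 (zz j m) K)

theorem zz_norm {n m : ℕ} (hm : 1 ≤ m) {j : ℤ}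
    (hj : j ∈ Finset.Icc (-((n * m : ℕ) : ℤ)) ((n * m : ℕ) : ℤ)) : ‖zz j m‖ ≤ n + 1 := by
  have hm' : (1 : ℝ) ≤ m := by exact_mod_cast hm
  have hm0 : (0 : ℝ) < m := by linarith
  rw [Finset.mem_Icc] at hj
  have h1 : |(j : ℝ)| ≤ n * m := by
    rw [abs_le]
    constructor
    · have := hj.1
      have h2 : ((-((n * m : ℕ) : ℤ) : ℤ) : ℝ) ≤ (j : ℝ) := by exact_mod_cast this
      push_cast at h2
      linarith
    · have := hj.2
      have h2 : (j : ℝ) ≤ (((n * m : ℕ) : ℤ) : ℝ) := by exact_mod_cast this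
      push_cast at h2
      linarith
  refine (Complex.norm_le_abs_re_add_abs_im _).trans ?_
  change |(j : ℝ) / m| + |1 / (m : ℝ)| ≤ _
  rw [abs_div, abs_of_pos hm0, abs_of_pos (by positivity : (0 : ℝ) < 1 / m)]
  have h2 : |(j : ℝ)| / m ≤ n := by
    rw [div_le_iff₀ hm0]
    exact h1
  have h3 : 1 / (m : ℝ) ≤ 1 := by
    rw [div_le_iff₀ hm0]
    linarith
  linarith

theorem zz_im {m : ℕ} (hm : 1 ≤ m) (j : ℤ) : 0 < (zz j m).im := by
  have hm' : (1 : ℝ) ≤ m := by exact_mod_cast hm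
  change 0 < 1 / (m : ℝ)
  positivity

theorem card_grid (n m : ℕ) :
    ((Finset.Icc (-((n * m : ℕ) : ℤ)) ((n * m : ℕ) : ℤ)).card : ℝ) = 2 * (n * m) + 1 := by
  rw [Int.card_Icc]
  have : (((n * m : ℕ) : ℤ) + 1 - -((n * m : ℕ) : ℤ)).toNat = 2 * (n * m) + 1 := by omega
  rw [this]
  push_cast
  ring

/-- The main estimate. -/
theorem core (hS : S_SYMB) (hC : S_CSYM) (hO : S_OPR) (hD : S_DIA) (hSC1 : S_SC1) (hX : S_CX)
    (hUU : S_UUC) (hPSI : S_PSI) (hFIX : S_FIX) (hC1 : S_C1) (hZ : S_ZF) (hCay : S_CAY)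
    (hM : S_MZP) (hNET : S_NETX2) {ψ : C(UnitAddCircle, ℝ)} (hψ : IsSemi ψ) {r : ℝ} (hr : 0 < r)
    (hd : 0 < d) (K : C(UnitAddTorus (Fin d), ℝ)) (n m : ℕ) (hm : 1 ≤ m) (κ : ℝ) (hκ : 0 < κ) :
    ∀ᶠ M : ℕ in atTop, ∀ X ∈ Qf, κ ≤ vr (qlaw X) →
      Fm n m (addL ψ K r M) (qlaw X) ≤ (2 * n + 1) * (4 / r ^ 2 + 1) := by
  have hm' : (1 : ℝ) ≤ m := by exact_mod_cast hm
  have hm0 : (0 : ℝ) < m := by linarith
  obtain ⟨q, hq0, hq1, hq⟩ := hX.2.2.1 r (‖K‖ + r + (n + 1)) (1 / m) (by positivity)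
  have hqq : 0 < 1 - q := by linarith
  obtain ⟨L, hL0, hL⟩ := E2_law (d := d) hC hO hD hZ hCay hM hq0 hq1
  obtain ⟨B, hB⟩ : ∃ B, B = 4 * (1 + 2 / (1 - q)) := ⟨_, rfl⟩
  have hB0 : 0 < B := by rw [hB]; positivity
  obtain ⟨τ, hτ⟩ : ∃ τ, τ = min (1 / (2 * L)) (κ / 4) := ⟨_, rfl⟩
  have hτ0 : 0 < τ := by rw [hτ]; positivity
  have hτ1 : L * τ ≤ 1 / 2 := by
    have : τ ≤ 1 / (2 * L) := by rw [hτ]; exact min_le_left _ _
    calc L * τ ≤ L * (1 / (2 * L)) := mul_le_mul_of_nonneg_left this hL0.le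
      _ = 1 / 2 := by field_simp
  have hτ2 : 2 * τ ≤ κ / 2 := by
    have : τ ≤ κ / 4 := by rw [hτ]; exact min_le_right _ _
    linarith
  obtain ⟨𝓕, hf1, hf2⟩ := hNET τ hτ0
  -- norms of the symbols
  have hun : ∀ M : ℕ, ∀ j ∈ Finset.Icc (-((n * m : ℕ) : ℤ)) ((n * m : ℕ) : ℤ),
      ‖us (Measure.dirac 0) 1 (zz j m) (addL ψ K r M)‖ ≤ q := by
    intro M j hj
    refine us_le hX (zz_im hm j).le hq0 fun k => hq _ _ ?_ ?_ (by simpa using hr.le)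
    · have h1 := zz_norm hm hj
      have h2 : ‖((addL ψ K r M) k : ℂ)‖ ≤ ‖K‖ + r := by
        rw [Complex.norm_real]
        change ‖K k + r * ψ _‖ ≤ _
        refine (norm_add_le _ _).trans (add_le_add (K.norm_coe_le_norm k) ?_)
        rw [Real.norm_eq_abs, abs_mul, abs_of_pos hr]
        nlinarith [hψ.bound ((M * lap d k / (2 * Real.pi) : ℝ) : UnitAddCircle)]
      exact (norm_sub_le _ _).trans (add_le_add h2 h1)
    · have : (((addL ψ K r M) k : ℂ) - zz j m).im = -(zz j m).im := by simp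
      rw [this]
      exact le_rfl
  -- the finite net
  have hev : ∀ᶠ M : ℕ in atTop, ∀ Y ∈ 𝓕, ∀ j ∈ Finset.Icc (-((n * m : ℕ) : ℤ)) ((n * m : ℕ) : ℤ),
      0 < vr (qlaw Y) →
      E2 (qlaw Y) (us (Measure.dirac 0) 1 (zz j m) (addL ψ K r M)) ≤ 4 / r ^ 2 + 1 / 2 := by
    refine (eventually_all_finite hf1).2 fun Y _ => (eventually_all_finset _).2 fun j hj => ?_
    by_cases hv : 0 < vr (qlaw Y)
    · have hz := zz_im hm j
      obtain ⟨s, hs, hUn, hlim⟩ := lvl hSC1 hX hUU hFIX hC1 (qlaw Y) hv hψ hr hd K hz hq0 hq1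
        (fun x a h1 h2 h3 => hq x a (h1.trans (by
          have := zz_norm hm hj
          linarith)) h2 h3)
      have hb := em_bound hS hC hSC1 hX hUU hPSI hFIX (qlaw Y) hv hψ hr K hz hs
      filter_upwards [hlim (1 / (2 * B)) (by positivity)] with M hM' _
      have h1 := E2_zf hZ hCay hM (qlaw Y) hq0 hq1 (hun M j hj) hUn
      rw [← hB] at h1
      have h2 := mul_le_mul_of_nonneg_left hM' hB0.le
      have h3 : B * (1 / (2 * B)) = 1 / 2 := by field_simp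
      have h4 : E2 (qlaw Y) (UU (lev ψ r) (wz K (zz j m)) s) ≤ 4 / r ^ 2 := hb
      linarith
    · exact Eventually.of_forall fun M h => absurd h hv
  filter_upwards [hev] with M hM' X hXQ hκX
  obtain ⟨Y, hY, hcd⟩ := hf2 X hXQ
  have hvY : 0 < vr (qlaw Y) := by
    have := vr_law hCay hτ0 hcd
    linarith
  have hj : ∀ j ∈ Finset.Icc (-((n * m : ℕ) : ℤ)) ((n * m : ℕ) : ℤ),
      E2 (qlaw X) (us (Measure.dirac 0) 1 (zz j m) (addL ψ K r M)) ≤ 4 / r ^ 2 + 1 := by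
    intro j hj
    have h1 := hL X Y τ hτ0 hcd _ (hun M j hj)
    have h2 := hM' Y hY j hj hvY
    linarith
  have hsum := Finset.sum_le_card_nsmul _ _ _ hj
  rw [nsmul_eq_mul, card_grid] at hsum
  unfold Fm
  have h5 : 1 / (m : ℝ) * ∑ j ∈ Finset.Icc (-((n * m : ℕ) : ℤ)) ((n * m : ℕ) : ℤ),
      E2 (qlaw X) (us (Measure.dirac 0) 1 (zz j m) (addL ψ K r M))
      ≤ 1 / m * ((2 * (n * m) + 1) * (4 / r ^ 2 + 1)) :=
    mul_le_mul_of_nonneg_left hsum (by positivity)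
  refine h5.trans ?_
  have h6 : 1 / (m : ℝ) * ((2 * (n * m) + 1) * (4 / r ^ 2 + 1))
      = (2 * n + 1 / m) * (4 / r ^ 2 + 1) := by
    field_simp
  rw [h6]
  refine mul_le_mul_of_nonneg_right ?_ (by positivity)
  have h7 : 1 / (m : ℝ) ≤ 1 := by
    rw [div_le_iff₀ hm0]
    linarith
  linarith

end

end Pool.Agent.U281.GEN
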