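import Pool.Agent.U281.GEN.Semi
import Pool.Agent.W304.WA.Zfw

/-!
The Green function of the effective medium is bounded in mean square, uniformly in the energy.
-/

set_option autoImplicit false

namespace Pool.Agent.U281.GEN

open MeasureTheory Filter Pool.Agent.W792.LL Pool.Agent.W792.WA Pool.Agent.W19.WAPsi
open scoped Topology

noncomputable section

variable {d : ℕ}

theorem gz_eq (hC : S_CSYM) {m : C(UnitAddTorus (Fin d), ℂ)} (hm : ‖m‖ < 1)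
    (v : (Fin d → ℤ) → ℝ) : gz m v = inner ℂ (dl 0) (Gop m v (dl 0)) := by
  obtain ⟨-, r1, r2⟩ := (hC (Measure.dirac 0) d m hm).1 v
  obtain ⟨c, hc⟩ : ∃ c, c = cay (v 0) := ⟨_, rfl⟩
  have hcc : (starRingEnd ℂ) c * c = 1 := by
    rw [hc, ← Complex.normSq_eq_conj_mul_self, Complex.normSq_eq_norm_sq, cay_norm]
    norm_num
  have e1 : dc v (dl 0) = c • (dl 0 : l2 (Fin d → ℤ)) := by
    ext x
    rw [dc_apply]
    by_cases hx : x = 0
    · subst hx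
      rw [hc]
      rfl
    · simp [dl, lp.coeFn_smul, Pi.single_eq_of_ne hx]
  obtain ⟨w, hw⟩ : ∃ w : l2 (Fin d → ℤ), w = (1 - (starRingEnd ℂ) c) • rsv m v (dl 0)
      + (starRingEnd ℂ) c • dl 0 := ⟨_, rfl⟩
  have e2 : (1 - opr m * dc v) w = dl 0 - opr m (dl 0) := by
    have h1 : (1 - opr m * dc v) (rsv m v (dl 0)) = dl 0 := by
      have := congrArg (fun T : l2 (Fin d → ℤ) →L[ℂ] l2 (Fin d → ℤ) => T (dl 0)) r1
      exact this
    have h2 : (1 - opr m * dc v) (dl 0 : l2 (Fin d → ℤ)) = dl 0 - c • opr m (dl 0) := by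
      have : (1 - opr m * dc v) (dl 0 : l2 (Fin d → ℤ)) = dl 0 - opr m (dc v (dl 0)) := rfl
      rw [this, e1, map_smul]
    rw [hw, map_add, map_smul, map_smul, h1, h2, smul_sub, smul_smul, hcc, one_smul, sub_smul,
      one_smul]
    abel
  have e3 : rsv m v (dl 0 - opr m (dl 0)) = w := by
    rw [← e2]
    have := congrArg (fun T : l2 (Fin d → ℤ) →L[ℂ] l2 (Fin d → ℤ) => T w) r2
    exact this
  have e4 : (rsv m v (dl 0)) 0 = Zf m (fun x => cay (v x)) := rfl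
  have e5 : (dl 0 : l2 (Fin d → ℤ)) 0 = 1 := by simp [dl]
  have e6 : w 0 = (1 - (starRingEnd ℂ) c) * Zf m (fun x => cay (v x)) + (starRingEnd ℂ) c := by
    rw [hw]
    simp only [lp.coeFn_add, lp.coeFn_smul, Pi.add_apply, Pi.smul_apply, smul_eq_mul, e4, e5,
      mul_one]
  have e7 : (inner ℂ (dl 0) (Gop m v (dl 0)) : ℂ) = (Gop m v (dl 0)) 0 :=
    (coord_inner 0 (Gop m v (dl 0))).symm
  have e8 : (Gop m v (dl 0)) 0 = Complex.I / 2 * (w 0 - c * w 0) := by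
    unfold Gop
    rw [e3]
    simp only [lp.coeFn_sub, lp.coeFn_smul, Pi.sub_apply, Pi.smul_apply, smul_eq_mul, dc_apply,
      ← hc]
  have e9 : ((‖1 - c‖ ^ 2 : ℝ) : ℂ) = (1 - c) * (1 - (starRingEnd ℂ) c) := by
    have : (1 - (starRingEnd ℂ) c) = (starRingEnd ℂ) (1 - c) := by simp
    rw [this, Complex.mul_conj, Complex.normSq_eq_norm_sq]
  rw [e7, e8, e6]
  unfold gz
  rw [← hc, e9]
  have hI : (1 : ℂ) / (2 * Complex.I) = -(Complex.I / 2) := by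
    field_simp
    have := Complex.I_sq
    linear_combination this
  rw [hI]
  linear_combination (Complex.I / 2) * hcc

/-- The bound in mean square. -/
theorem em_bound (hS : S_SYMB) (hC : S_CSYM) (hSC1 : S_SC1) (hX : S_CX) (hUU : S_UUC)
    (hPSI : S_PSI) (hFIX : S_FIX)
    (ν : Measure ℝ) [IsProbabilityMeasure ν] (hv : 0 < vr ν) {ψ : C(UnitAddCircle, ℝ)}
    (hψ : IsSemi ψ) {r : ℝ} (hr : 0 < r) (K : C(UnitAddTorus (Fin d), ℝ)) {z : ℂ} (hz : 0 < z.im)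
    {s : C(UnitAddTorus (Fin d), ℂ)} (hs : IsFix ν (lev ψ r) (wz K z) s) :
    ∫ v, ‖gz (UU (lev ψ r) (wz K z) s) v‖ ^ 2 ∂(Pn ν (Fin d → ℤ)) ≤ 4 / r ^ 2 := by
  obtain ⟨hUn, hk⟩ := semi_pt hSC1 hX hUU hPSI hFIX ν hv hψ hr K hz hs
  obtain ⟨U, hU⟩ : ∃ U, U = UU (lev ψ r) (wz K z) s := ⟨_, rfl⟩
  rw [← hU] at hUn hk
  rw [← hU]
  have hcA : Continuous fun k => (Gs ν U k).im := Complex.continuous_im.comp (Gs ν U).continuous
  let n : C(UnitAddTorus (Fin d), ℂ) := ⟨fun k => (1 - U k)⁻¹,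
    (continuous_const.sub U.continuous).inv₀ fun k => (hk k).1⟩
  let β : C(UnitAddTorus (Fin d), ℂ) := ⟨fun k => ((Real.sqrt ((Gs ν U k).im) : ℝ) : ℂ),
    Complex.continuous_ofReal.comp hcA.sqrt⟩
  let β' : C(UnitAddTorus (Fin d), ℂ) := ⟨fun k => (((Real.sqrt ((Gs ν U k).im))⁻¹ : ℝ) : ℂ),
    Complex.continuous_ofReal.comp (hcA.sqrt.inv₀ fun k => (Real.sqrt_pos.2 (hk k).2.1).ne')⟩
  have hn : n * (1 - U) = 1 := by
    ext k
    exact inv_mul_cancel₀ (hk k).1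
  have hβ : star β = β := by
    ext k
    exact Complex.conj_ofReal _
  have hβ' : star β' = β' := by
    ext k
    exact Complex.conj_ofReal _
  have hbb : β * β' = 1 := by
    ext k
    change ((Real.sqrt ((Gs ν U k).im) : ℝ) : ℂ) * (((Real.sqrt ((Gs ν U k).im))⁻¹ : ℝ) : ℂ) = 1
    rw [← Complex.ofReal_mul, mul_inv_cancel₀ (Real.sqrt_pos.2 (hk k).2.1).ne', Complex.ofReal_one]
  have hβn : ∀ k, ‖β k‖ ^ 2 = (Gs ν U k).im := by
    intro k
    change ‖((Real.sqrt ((Gs ν U k).im) : ℝ) : ℂ)‖ ^ 2 = _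
    rw [Complex.norm_real, Real.norm_eq_abs, sq_abs, Real.sq_sqrt (hk k).2.1.le]
  have hb : ∀ k, ‖β k‖ ^ 2 ≤ 4 / r ^ 2 * (‖n k‖ ^ 2 * (1 - ‖U k‖ ^ 2)) := by
    intro k
    have h1 : ‖n k‖ ^ 2 * (1 - ‖U k‖ ^ 2) = (1 - ‖U k‖ ^ 2) / ‖1 - U k‖ ^ 2 := by
      change ‖(1 - U k)⁻¹‖ ^ 2 * _ = _
      rw [norm_inv]
      field_simp
    rw [h1, ← (hk k).2.2, hβn]
    have h2 : 4 / r ^ 2 * (z.im + r ^ 2 / 4 * (Gs ν U k).im)
        = 4 / r ^ 2 * z.im + (Gs ν U k).im := by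
      field_simp
    rw [h2]
    have : 0 ≤ 4 / r ^ 2 * z.im := by positivity
    linarith
  have h1 := weak_l2 hS hC ν hUn hn hβ hβ' hbb (c := 4 / r ^ 2) (by positivity) hb
    (fun k => (hβn k).ge) (dl 0) (dl 0)
  rw [Pool.Agent.W304.WA.Zfw.norm_dl] at h1
  simp_rw [gz_eq hC hUn]
  linarith

end

end Pool.Agent.U281.GEN
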