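import Pool.Agent.U281.GEN.Eig
import Pool.Agent.W792.WA.G1
import Pool.Agent.U281.NP.Vrs

/-!
The generic set of kinetic energies.
-/

set_option autoImplicit false

namespace Pool.Agent.U281.GEN

open MeasureTheory Filter Pool.Agent.W792.LL Pool.Agent.W792.WA Pool.Agent.W19.WAPsi
open scoped Topology BoundedContinuousFunction

noncomputable section

variable {d : ℕ}

/-- The open sets of kinetic energies. -/
def On (d : ℕ) (w : ℕ → ℝ) (n : ℕ) : Set C(UnitAddTorus (Fin d), ℝ) :=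
  {K | ∃ m : ℕ, n + 1 ≤ m ∧ ∃ c : ℝ, c < w m / 4 ^ n ∧ ∀ X ∈ Qf,
    1 / ((n : ℝ) + 1) ≤ vr (qlaw X) → Fm n m K (qlaw X) ≤ c}

/-- The generic set. -/
def GG (d : ℕ) (w : ℕ → ℝ) : Set C(UnitAddTorus (Fin d), ℝ) := ⋂ n, On d w n

theorem us_unif (hX : S_CX) (n m : ℕ) (hm : 1 ≤ m) (D : ℝ) : ∃ q : ℝ, 0 ≤ q ∧ q < 1 ∧
    ∀ K : C(UnitAddTorus (Fin d), ℝ), ‖K‖ ≤ D →
    ∀ j ∈ Finset.Icc (-((n * m : ℕ) : ℤ)) ((n * m : ℕ) : ℤ),
      ‖us (Measure.dirac 0) 1 (zz j m) K‖ ≤ q := by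
  have hm' : (1 : ℝ) ≤ m := by exact_mod_cast hm
  obtain ⟨q, hq0, hq1, hq⟩ := hX.2.2.1 0 (D + (n + 1)) (1 / m) (by positivity)
  refine ⟨q, hq0, hq1, fun K hK j hj => us_le hX (zz_im hm j).le hq0 fun k => hq _ _ ?_ ?_ (by simp)⟩
  · refine (norm_sub_le _ _).trans (add_le_add ?_ (zz_norm hm hj))
    rw [Complex.norm_real]
    exact (K.norm_coe_le_norm k).trans hK
  · have : ((K k : ℂ) - zz j m).im = -(zz j m).im := by simp
    rw [this]
    exact le_rfl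

theorem Fm_lip (hX : S_CX) (hZ : S_ZF) (hCay : S_CAY) (hM : S_MZP) (n m : ℕ) (hm : 1 ≤ m)
    (K : C(UnitAddTorus (Fin d), ℝ)) : ∃ A : ℝ, 0 < A ∧ ∀ K' : C(UnitAddTorus (Fin d), ℝ),
      ‖K' - K‖ ≤ 1 → ∀ (ν : Measure ℝ) [IsProbabilityMeasure ν],
      Fm n m K' ν ≤ Fm n m K ν + A * ‖K' - K‖ := by
  have hm' : (1 : ℝ) ≤ m := by exact_mod_cast hm
  have hm0 : (0 : ℝ) < m := by linarith
  obtain ⟨q, hq0, hq1, hq⟩ := us_unif (d := d) hX n m hm (‖K‖ + 1)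
  have hqq : 0 < 1 - q := by linarith
  obtain ⟨A, hA⟩ : ∃ A, A = 4 * (1 + 2 / (1 - q)) * (2 / (1 - q) ^ 2) := ⟨_, rfl⟩
  have hA0 : 0 < A := by rw [hA]; positivity
  refine ⟨(2 * n + 1) * A, by positivity, fun K' hK' ν _ => ?_⟩
  have hK'n : ‖K'‖ ≤ ‖K‖ + 1 := by
    have : K' = K + (K' - K) := by abel
    rw [this]
    exact (norm_add_le _ _).trans (add_le_add le_rfl hK')
  have h1 : ∀ j ∈ Finset.Icc (-((n * m : ℕ) : ℤ)) ((n * m : ℕ) : ℤ),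
      E2 ν (us (Measure.dirac 0) 1 (zz j m) K')
        ≤ E2 ν (us (Measure.dirac 0) 1 (zz j m) K) + A * ‖K' - K‖ := by
    intro j hj
    refine (E2_lip hZ hCay hM ν hq0 hq1 (hq K' hK'n j hj) (hq K (by linarith) j hj)).trans ?_
    have h2 := us_lip hX K' K (zz_im hm j).le
    have h3 : 4 * (1 + 2 / (1 - q)) * (‖us (Measure.dirac 0) 1 (zz j m) K'
        - us (Measure.dirac 0) 1 (zz j m) K‖ / (1 - q) ^ 2)
        ≤ 4 * (1 + 2 / (1 - q)) * ((2 * ‖K' - K‖) / (1 - q) ^ 2) := by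
      refine mul_le_mul_of_nonneg_left ?_ (by positivity)
      exact div_le_div_of_nonneg_right h2 (by positivity)
    have h4 : 4 * (1 + 2 / (1 - q)) * ((2 * ‖K' - K‖) / (1 - q) ^ 2) = A * ‖K' - K‖ := by
      rw [hA]
      ring
    linarith
  have h2 := Finset.sum_le_sum h1
  rw [Finset.sum_add_distrib, Finset.sum_const, nsmul_eq_mul, card_grid] at h2
  unfold Fm
  have h3 := mul_le_mul_of_nonneg_left h2 (by positivity : (0 : ℝ) ≤ 1 / m)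
  refine h3.trans ?_
  rw [mul_add]
  refine add_le_add le_rfl ?_
  have h4 : 1 / (m : ℝ) * ((2 * (n * m) + 1) * (A * ‖K' - K‖))
      = (2 * n + 1 / m) * (A * ‖K' - K‖) := by
    field_simp
  rw [h4, mul_assoc (2 * (n : ℝ) + 1)]
  refine mul_le_mul_of_nonneg_right ?_ (by positivity)
  have h7 : 1 / (m : ℝ) ≤ 1 := by
    rw [div_le_iff₀ hm0]
    linarith
  linarith

theorem isOpen_On (hX : S_CX) (hZ : S_ZF) (hCay : S_CAY) (hM : S_MZP) (w : ℕ → ℝ) (n : ℕ) :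
    IsOpen (On d w n) := by
  rw [Metric.isOpen_iff]
  rintro K ⟨m, hm, c, hc, hF⟩
  obtain ⟨A, hA0, hA⟩ := Fm_lip hX hZ hCay hM n m (by omega) K
  obtain ⟨δ, hδ⟩ : ∃ δ, δ = w m / 4 ^ n - c := ⟨_, rfl⟩
  have hδ0 : 0 < δ := by rw [hδ]; linarith
  refine ⟨min 1 (δ / (2 * A)), by positivity, fun K' hK' => ?_⟩
  rw [Metric.mem_ball, dist_eq_norm] at hK'
  have h1 : ‖K' - K‖ ≤ 1 := hK'.le.trans (min_le_left _ _)
  have h2 : ‖K' - K‖ ≤ δ / (2 * A) := hK'.le.trans (min_le_right _ _)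
  refine ⟨m, hm, c + δ / 2, by linarith, fun X hX' hv => ?_⟩
  have h3 := hA K' h1 (qlaw X)
  have h4 := hF X hX' hv
  have h5 : A * ‖K' - K‖ ≤ δ / 2 := by
    calc A * ‖K' - K‖ ≤ A * (δ / (2 * A)) := mul_le_mul_of_nonneg_left h2 hA0.le
      _ = δ / 2 := by field_simp
  linarith

/-- The function of the level. -/
def lf (ψ : C(UnitAddCircle, ℝ)) (r : ℝ) (M : ℕ) : C(ℝ, ℝ) where
  toFun t := r * ψ ((M * t / (2 * Real.pi) : ℝ) : UnitAddCircle)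
  continuous_toFun := by
    have h : Continuous fun t : ℝ => ((M * t / (2 * Real.pi) : ℝ) : UnitAddCircle) :=
      (AddCircle.continuous_mk' (1 : ℝ)).comp (by fun_prop)
    exact continuous_const.mul (ψ.continuous.comp h)

/-- The kinetic energy `K + f(-Δ)`. -/
def kin (K : C(UnitAddTorus (Fin d), ℝ)) (f : ℝ →ᵇ ℝ) : C(UnitAddTorus (Fin d), ℝ) :=
  K + f.toContinuousMap.comp (lap d)

theorem kin_dist (K : C(UnitAddTorus (Fin d), ℝ)) (f g : ℝ →ᵇ ℝ) :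
    dist (kin K f) (kin K g) ≤ dist f g := by
  refine (ContinuousMap.dist_le dist_nonneg).2 fun k => ?_
  change dist (K k + f (lap d k)) (K k + g (lap d k)) ≤ dist f g
  rw [dist_add_left]
  exact BoundedContinuousFunction.dist_coe_le_dist _

theorem kin_cont (K : C(UnitAddTorus (Fin d), ℝ)) : Continuous (kin K) := by
  have : LipschitzWith 1 (kin K) := LipschitzWith.of_dist_le_mul fun f g => by
    rw [NNReal.coe_one, one_mul]
    exact kin_dist K f g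
  exact this.continuous

theorem dense_On (hS : S_SYMB) (hC : S_CSYM) (hO : S_OPR) (hD : S_DIA) (hSC1 : S_SC1) (hX : S_CX)
    (hUU : S_UUC) (hPSI : S_PSI) (hFIX : S_FIX) (hC1 : S_C1) (hZ : S_ZF) (hCay : S_CAY)
    (hM : S_MZP) (hNET : S_NETX2) {ψ : C(UnitAddCircle, ℝ)} (hψ : IsSemi ψ)
    (hd : 0 < d) {w : ℕ → ℝ} (hw : Tendsto w atTop atTop) (n : ℕ)
    (K : C(UnitAddTorus (Fin d), ℝ)) : Dense (kin K ⁻¹' On d w n) := by
  rw [Metric.dense_iff]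
  intro f ε hε
  obtain ⟨r, hr⟩ : ∃ r, r = ε / 2 := ⟨_, rfl⟩
  have hr0 : 0 < r := by rw [hr]; positivity
  obtain ⟨C, hCd⟩ : ∃ C : ℝ, C = (2 * n + 1) * (4 / r ^ 2 + 1) := ⟨_, rfl⟩
  obtain ⟨m, hm1, hm2⟩ := ((hw.eventually_gt_atTop (4 ^ n * C)).and
    (eventually_ge_atTop (n + 1))).exists
  have hcore := core hS hC hO hD hSC1 hX hUU hPSI hFIX hC1 hZ hCay hM hNET hψ hr0 hd (kin K f) n m
    (by omega) (1 / ((n : ℝ) + 1)) (by positivity)
  obtain ⟨M, hM'⟩ := hcore.exists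
  let g : ℝ →ᵇ ℝ := BoundedContinuousFunction.ofNormedAddCommGroup (lf ψ r M) (lf ψ r M).continuous
    r (fun t => by
      change ‖r * ψ _‖ ≤ r
      rw [Real.norm_eq_abs, abs_mul, abs_of_pos hr0]
      nlinarith [hψ.bound ((M * t / (2 * Real.pi) : ℝ) : UnitAddCircle)])
  have hg : ‖g‖ ≤ r := BoundedContinuousFunction.norm_ofNormedAddCommGroup_le _ hr0.le _
  refine ⟨f + g, ?_, ?_⟩
  · rw [Metric.mem_ball, dist_eq_norm, add_sub_cancel_left]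
    refine hg.trans_lt ?_
    rw [hr]
    linarith
  · have e : kin K (f + g) = addL ψ (kin K f) r M := by
      ext k
      change K k + (f (lap d k) + r * ψ _) = (K k + f (lap d k)) + r * ψ _
      ring
    rw [Set.mem_preimage, e]
    refine ⟨m, hm2, C, ?_, fun X hX' hv => ?_⟩
    · rw [lt_div_iff₀ (by positivity)]
      linarith
    · rw [hCd]
      exact hM' X hX' hv

theorem gg_dense (hS : S_SYMB) (hC : S_CSYM) (hO : S_OPR) (hD : S_DIA) (hSC1 : S_SC1) (hX : S_CX)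
    (hUU : S_UUC) (hPSI : S_PSI) (hFIX : S_FIX) (hC1 : S_C1) (hZ : S_ZF) (hCay : S_CAY)
    (hM : S_MZP) (hNET : S_NETX2) (hSEMI : S_SEMI)
    (hd : 0 < d) {w : ℕ → ℝ} (hw : Tendsto w atTop atTop) :
    IsGδ (GG d w) ∧ ∀ K : C(UnitAddTorus (Fin d), ℝ), Dense (kin K ⁻¹' GG d w) := by
  obtain ⟨ψ, hψ⟩ := hSEMI
  have ho := fun n => isOpen_On (d := d) hX hZ hCay hM w n
  refine ⟨IsGδ.iInter_of_isOpen ho, fun K => ?_⟩
  unfold GG
  rw [Set.preimage_iInter]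
  exact dense_iInter_of_isOpen (fun n => (ho n).preimage (kin_cont K)) fun n =>
    dense_On hS hC hO hD hSC1 hX hUU hPSI hFIX hC1 hZ hCay hM hNET hψ hd hw n K

/-! ### Almost sure convergence along the scales -/

theorem us_lt (hX : S_CX) (K : C(UnitAddTorus (Fin d), ℝ)) {z : ℂ} (hz : 0 < z.im) :
    ‖us (Measure.dirac 0) 1 z K‖ < 1 := by
  obtain ⟨q, hq0, hq1, hq⟩ := hX.2.2.1 0 (‖K‖ + ‖z‖) z.im hz
  refine (us_le hX hz.le hq0 fun k => hq _ _ ?_ ?_ (by simp)).trans_lt hq1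
  · refine (norm_sub_le _ _).trans (add_le_add ?_ le_rfl)
    rw [Complex.norm_real]
    exact K.norm_coe_le_norm k
  · have : ((K k : ℂ) - z).im = -z.im := by simp
    rw [this]

theorem Ph_meas (hX : S_CX) (hCay : S_CAY) (hM : S_MZP) (K : C(UnitAddTorus (Fin d), ℝ)) (n : ℕ)
    {m : ℕ} (hm : 1 ≤ m) : Measurable fun v : (Fin d → ℤ) → ℝ => Ph n m K v := by
  unfold Ph
  refine Measurable.const_mul (Finset.measurable_sum _ fun j _ => ?_) _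
  exact (gz_meas hCay hM (us_lt hX K (zz_im hm j))).norm.pow_const 2

theorem Ph_int (hX : S_CX) (hZ : S_ZF) (hCay : S_CAY) (hM : S_MZP)
    (K : C(UnitAddTorus (Fin d), ℝ)) (n : ℕ) {m : ℕ} (hm : 1 ≤ m) (ν : Measure ℝ)
    [IsProbabilityMeasure ν] : Integrable (fun v => Ph n m K v) (Pn ν (Fin d → ℤ)) ∧
      ∫ v, Ph n m K v ∂(Pn ν (Fin d → ℤ)) = Fm n m K ν := by
  have h1 : ∀ j ∈ Finset.Icc (-((n * m : ℕ) : ℤ)) ((n * m : ℕ) : ℤ), Integrable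
      (fun v : (Fin d → ℤ) → ℝ => ‖gz (us (Measure.dirac 0) 1 (zz j m) K) v‖ ^ 2)
      (Pn ν (Fin d → ℤ)) := fun j _ =>
    gz2_int hZ hCay hM ν (norm_nonneg _) (us_lt hX K (zz_im hm j)) le_rfl
  unfold Ph Fm E2
  refine ⟨(integrable_finsetSum _ h1).const_mul _, ?_⟩
  rw [integral_const_mul, integral_finsetSum _ h1]

theorem ae_conv (hX : S_CX) (hZ : S_ZF) (hCay : S_CAY) (hM : S_MZP) (hQNT : S_QNT2)
    (hSHF : S_SHF) {w : ℕ → ℝ} {K : C(UnitAddTorus (Fin d), ℝ)} (hK : K ∈ GG d w) :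
    ∃ m : ℕ → ℕ, (∀ n, n + 1 ≤ m n) ∧ ∀ (ν : Measure ℝ) [IsProbabilityMeasure ν], 0 < vr ν →
      ∀ᵐ v ∂(Pn ν (Fin d → ℤ)), ∀ x : Fin d → ℤ,
        Tendsto (fun n => Ph n (m n) K (fun y => v (y + x)) / w (m n)) atTop (𝓝 0) := by
  have h0 : ∀ n, K ∈ On d w n := fun n => Set.mem_iInter.1 hK n
  choose m hm c hc hF using h0
  refine ⟨m, hm, fun ν _ hv => ?_⟩
  refine hSHF ν d (fun v => Tendsto (fun n => Ph n (m n) K v / w (m n)) atTop (𝓝 0)) ?_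
  obtain ⟨X, hXQ, rfl⟩ := hQNT ν
  obtain ⟨n₀, hn₀⟩ := exists_nat_one_div_lt hv
  have hκ : ∀ n, 1 / (((n₀ + n : ℕ) : ℝ) + 1) ≤ vr (qlaw X) := by
    intro n
    refine le_trans ?_ hn₀.le
    apply one_div_le_one_div_of_le (by positivity)
    push_cast
    linarith [(Nat.cast_nonneg n : (0 : ℝ) ≤ n)]
  have hm1 : ∀ n, 1 ≤ m n := fun n => by have := hm n; omega
  have hFn : ∀ n, Fm (n₀ + n) (m (n₀ + n)) K (qlaw X) < w (m (n₀ + n)) / 4 ^ (n₀ + n) := fun n =>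
    (hF (n₀ + n) X hXQ (hκ n)).trans_lt (hc (n₀ + n))
  have hF0 : ∀ n, 0 ≤ Fm (n₀ + n) (m (n₀ + n)) K (qlaw X) := by
    intro n
    rw [← (Ph_int hX hZ hCay hM K (n₀ + n) (hm1 _) (qlaw X)).2]
    exact integral_nonneg fun v => Ph_nonneg _ _ _ _
  have hw0 : ∀ n, 0 < w (m (n₀ + n)) := by
    intro n
    have h1 := (hF0 n).trans_lt (hFn n)
    by_contra hcon
    push Not at hcon
    have : w (m (n₀ + n)) / 4 ^ (n₀ + n) ≤ 0 := div_nonpos_of_nonpos_of_nonneg hcon (by positivity)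
    linarith
  obtain ⟨Ψ, hΨ⟩ : ∃ Ψ : ℕ → ((Fin d → ℤ) → ℝ) → ENNReal, Ψ = fun n v =>
    ENNReal.ofReal (Ph (n₀ + n) (m (n₀ + n)) K v / w (m (n₀ + n))) := ⟨_, rfl⟩
  have hΨm : ∀ n, Measurable (Ψ n) := by
    intro n
    rw [hΨ]
    exact ((Ph_meas hX hCay hM K (n₀ + n) (hm1 _)).div_const _).ennreal_ofReal
  have hΨi : ∀ n, ∫⁻ v, Ψ n v ∂(Pn (qlaw X) (Fin d → ℤ)) ≤ ENNReal.ofReal ((1 / 4) ^ n) := by
    intro n
    obtain ⟨i1, i2⟩ := Ph_int hX hZ hCay hM K (n₀ + n) (hm1 (n₀ + n)) (qlaw X)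
    rw [hΨ]
    simp only []
    rw [← ofReal_integral_eq_lintegral_ofReal (i1.div_const _)
      (ae_of_all _ fun v => div_nonneg (Ph_nonneg _ _ _ _) (hw0 n).le), integral_div, i2]
    refine ENNReal.ofReal_le_ofReal ?_
    rw [div_le_iff₀ (hw0 n)]
    refine (hFn n).le.trans ?_
    rw [div_eq_mul_inv, mul_comm]
    refine mul_le_mul_of_nonneg_right ?_ (hw0 n).le
    rw [← inv_pow, pow_add, one_div]
    have h1 : ((4 : ℝ)⁻¹) ^ n₀ ≤ 1 := pow_le_one₀ (by norm_num) (by norm_num)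
    have h2 : (0 : ℝ) ≤ ((4 : ℝ)⁻¹) ^ n := by positivity
    nlinarith
  have hsum : ∫⁻ v, ∑' n, Ψ n v ∂(Pn (qlaw X) (Fin d → ℤ)) ≠ ⊤ := by
    rw [lintegral_tsum fun n => (hΨm n).aemeasurable]
    refine ne_top_of_le_ne_top ?_ (ENNReal.tsum_le_tsum hΨi)
    have hs : Summable fun n : ℕ => ((1 : ℝ) / 4) ^ n :=
      summable_geometric_of_lt_one (by norm_num) (by norm_num)
    rw [← ENNReal.ofReal_tsum_of_nonneg (fun n => by positivity) hs]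
    exact ENNReal.ofReal_ne_top
  have hfin := ae_lt_top (Measurable.tsum fun n => hΨm n) hsum
  filter_upwards [hfin] with v hvv
  have h1 : Tendsto (fun n => Ψ n v) atTop (𝓝 0) :=
    ENNReal.tendsto_atTop_zero_of_tsum_ne_top hvv.ne
  have h2 : Tendsto (fun n => (Ψ n v).toReal) atTop (𝓝 0) := by
    have := (ENNReal.tendsto_toReal ENNReal.zero_ne_top).comp h1
    rwa [ENNReal.toReal_zero] at this
  have h3 : Tendsto (fun n => Ph (n + n₀) (m (n + n₀)) K v / w (m (n + n₀))) atTop (𝓝 0) := by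
    refine h2.congr fun n => ?_
    rw [hΨ]
    simp only []
    rw [ENNReal.toReal_ofReal (div_nonneg (Ph_nonneg _ _ _ _) (hw0 n).le), add_comm]
  exact (tendsto_add_atTop_iff_nat (f := fun n => Ph n (m n) K v / w (m n)) n₀).1 h3

end

end Pool.Agent.U281.GEN
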