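import Pool.Agent.U281.GEN.Fin
import Pool.Agent.W792.WA.All2

/-!
The final theorem of the project GEN.
-/

set_option autoImplicit false

namespace Pool.Agent.U281.GEN

open MeasureTheory Filter Pool.Agent.W792.LL Pool.Agent.W792.WA Pool.Agent.W19.WAPsi
open scoped Topology BoundedContinuousFunction

noncomputable section

variable {d : ℕ}

/-- No eigenvalue. -/
def NoEv (K : C(UnitAddTorus (Fin d), ℝ)) (v : (Fin d → ℤ) → ℝ) : Prop :=
  ∀ (E : ℝ) (u : (Fin d → ℤ) → ℂ), Summable (fun x => ‖u x‖ ^ 2) →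
    (∀ x, ∑' y, hopK K (x - y) * u y + (v x : ℂ) * u x = (E : ℂ) * u x) → u = 0

/-- The spectral measure of `δ_x`. -/
def IsSp (K : C(UnitAddTorus (Fin d), ℝ)) (v : (Fin d → ℤ) → ℝ) (x : Fin d → ℤ)
    (μ : Measure ℝ) : Prop :=
  ∀ z : ℂ, 0 < z.im → (∃ w, Sol (hopK K) 1 v z x w) ∧
    ∀ w, Sol (hopK K) 1 v z x w → w x = ∫ E : ℝ, 1 / ((E : ℂ) - z) ∂μ

theorem noEv (hS : S_SYMB) {K : C(UnitAddTorus (Fin d), ℝ)} {v : (Fin d → ℤ) → ℝ} {w : ℕ → ℝ}
    {m : ℕ → ℕ} (hm : ∀ n, n + 1 ≤ m n) (hw : ∀ᶠ n in atTop, 0 < w (m n))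
    (hw1 : ∀ n, w (m n) ≤ m n)
    (h : ∀ x : Fin d → ℤ,
      Tendsto (fun n => Ph n (m n) K (fun y => v (y + x)) / w (m n)) atTop (𝓝 0)) :
    NoEv K v := by
  intro E u hu he
  by_contra hne
  obtain ⟨x, hx⟩ : ∃ x, u x ≠ 0 := by
    by_contra hcon
    push Not at hcon
    exact hne (funext hcon)
  have hu' : Summable fun y => ‖u (y + x)‖ ^ 2 :=
    (Equiv.addRight x).summable_iff (f := fun y => ‖u y‖ ^ 2) |>.2 hu
  have he' : ∀ y, ∑' y', hopK K (y - y') * u (y' + x) + ((v (y + x) : ℝ) : ℂ) * u (y + x)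
      = (E : ℂ) * u (y + x) := by
    intro y
    rw [← he (y + x)]
    congr 1
    rw [← (Equiv.addRight x).tsum_eq (fun y' => hopK K (y + x - y') * u y')]
    refine tsum_congr fun y' => ?_
    change _ = hopK K (y + x - (y' + x)) * u (y' + x)
    rw [add_sub_add_right_eq_sub]
  obtain ⟨b, hb0, hb⟩ := eig_grid hS K (fun y => v (y + x)) E (fun y => u (y + x)) hu' he'
    (by simpa using hx)
  obtain ⟨N, hN⟩ := exists_nat_ge |E|
  have h1 : ∀ᶠ n in atTop, b ≤ Ph n (m n) K (fun y => v (y + x)) / w (m n) := by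
    filter_upwards [hw, eventually_ge_atTop N] with n hn1 hn2
    have hm1 : 1 ≤ m n := by have := hm n; omega
    have h2 := hb n (m n) hm1 (hN.trans (by exact_mod_cast hn2))
    rw [le_div_iff₀ hn1]
    exact (mul_le_mul_of_nonneg_left (hw1 n) hb0.le).trans h2
  have h2 := ge_of_tendsto (h x) h1
  linarith

theorem spec (hSPM : S_SPMU) {K : C(UnitAddTorus (Fin d), ℝ)} {v : (Fin d → ℤ) → ℝ} {w : ℕ → ℝ}
    {m : ℕ → ℕ} (hm : ∀ n, n + 1 ≤ m n) (hw : ∀ᶠ n in atTop, 0 < w (m n))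
    (hw1 : ∀ n, w (m n) ≤ m n)
    (h : ∀ x : Fin d → ℤ,
      Tendsto (fun n => Ph n (m n) K (fun y => v (y + x)) / w (m n)) atTop (𝓝 0))
    (x : Fin d → ℤ) : ∃ μ : Measure ℝ, IsFiniteMeasure μ ∧ IsSp K v x μ ∧ (∀ E, μ {E} = 0) ∧
      Tendsto (fun n => (m n : ℝ) / w (m n)
        * ∑ j ∈ Finset.Icc (-((n * m n : ℕ) : ℤ)) ((n * m n : ℕ) : ℤ), μ.real (cell j (m n)) ^ 2)
        atTop (𝓝 0) := by
  obtain ⟨μ, hμ, hμs⟩ := hSPM d K (fun y => v (y + x))
  have hm1 : ∀ n, 1 ≤ m n := fun n => by have := hm n; omega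
  have hcorr := fun n => corr_le K (fun y => v (y + x)) μ hμs n (hm1 n)
  have hlim : Tendsto (fun n => (m n : ℝ) / w (m n)
        * ∑ j ∈ Finset.Icc (-((n * m n : ℕ) : ℤ)) ((n * m n : ℕ) : ℤ), μ.real (cell j (m n)) ^ 2)
        atTop (𝓝 0) := by
    have h4 : Tendsto (fun n => 4 * (Ph n (m n) K (fun y => v (y + x)) / w (m n))) atTop (𝓝 0) := by
      have := (h x).const_mul 4
      rwa [mul_zero] at this
    refine tendsto_of_tendsto_of_tendsto_of_le_of_le' tendsto_const_nhds h4 ?_ ?_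
    · filter_upwards [hw] with n hn
      positivity
    · filter_upwards [hw] with n hn
      have h5 := div_le_div_of_nonneg_right (hcorr n) hn.le
      calc _ = (m n : ℝ) * (∑ j ∈ Finset.Icc (-((n * m n : ℕ) : ℤ)) ((n * m n : ℕ) : ℤ),
            μ.real (cell j (m n)) ^ 2) / w (m n) := by ring
        _ ≤ _ := h5
        _ = _ := by ring
  refine ⟨μ, hμ, ?_, fun E => ?_, hlim⟩
  · have hsh := (Pool.Agent.W156.WAFin.hS d (hopK K) 1 (fun _ => True) (by simp)).2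
    intro z hz
    refine ⟨?_, fun w hw => ?_⟩
    · obtain ⟨w, hw⟩ := (hμs z hz).1
      refine ⟨fun y => w (y - x), (hsh v z x _).2 ?_⟩
      have : (fun y => w (y + x - x)) = w := by funext y; rw [add_sub_cancel_right]
      rw [this]
      exact hw
    · have h4 := (hsh v z x w).1 hw
      have h5 := (hμs z hz).2 _ h4
      rw [← h5, zero_add]
  · obtain ⟨N, hN⟩ := exists_nat_ge |E|
    have h1 : ∀ᶠ n in atTop, μ.real {E} ^ 2 ≤ (m n : ℝ) / w (m n)
        * ∑ j ∈ Finset.Icc (-((n * m n : ℕ) : ℤ)) ((n * m n : ℕ) : ℤ),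
          μ.real (cell j (m n)) ^ 2 := by
      filter_upwards [hw, eventually_ge_atTop N] with n hn1 hn2
      have hE : |E| ≤ n := hN.trans (by exact_mod_cast hn2)
      obtain ⟨k1, k2, k3⟩ := floor_grid (hm1 n) hE
      have hm0 : (0 : ℝ) < m n := by exact_mod_cast hm1 n
      have h2 : μ.real {E} ≤ μ.real (cell ⌊E * m n⌋ (m n)) := by
        refine measureReal_mono (Set.singleton_subset_iff.2 ⟨?_, ?_⟩)
        · refine le_trans ?_ k2
          apply div_le_div_of_nonneg_right _ hm0.le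
          linarith
        · rw [add_div]
          exact k3
      have h3 : μ.real {E} ^ 2 ≤ ∑ j ∈ Finset.Icc (-((n * m n : ℕ) : ℤ)) ((n * m n : ℕ) : ℤ),
          μ.real (cell j (m n)) ^ 2 :=
        (pow_le_pow_left₀ measureReal_nonneg h2 2).trans
          (Finset.single_le_sum (f := fun j => μ.real (cell j (m n)) ^ 2)
            (fun i _ => by positivity) k1)
      have h4 : 1 ≤ (m n : ℝ) / w (m n) := by
        rw [le_div_iff₀ hn1, one_mul]
        exact hw1 n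
      have h5 : (0 : ℝ) ≤ ∑ j ∈ Finset.Icc (-((n * m n : ℕ) : ℤ)) ((n * m n : ℕ) : ℤ),
          μ.real (cell j (m n)) ^ 2 := by positivity
      nlinarith
    have h2 := ge_of_tendsto hlim h1
    have h3 : μ.real {E} = 0 := by
      have := measureReal_nonneg (μ := μ) (s := {E})
      nlinarith
    exact (measureReal_eq_zero_iff).1 h3

/-- The generic kinetic energies. -/
theorem gen (hd : 0 < d) {w : ℕ → ℝ} (hw : Tendsto w atTop atTop) :
    ∃ 𝓖 : Set C(UnitAddTorus (Fin d), ℝ), IsGδ 𝓖 ∧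
      (∀ K : C(UnitAddTorus (Fin d), ℝ), Dense (kin K ⁻¹' 𝓖)) ∧
      ∀ K ∈ 𝓖, ∃ m : ℕ → ℕ, (∀ n, n + 1 ≤ m n) ∧
        ∀ (ν : Measure ℝ) [IsProbabilityMeasure ν], 0 < vr ν → ∀ᵐ v ∂(Pn ν (Fin d → ℤ)),
          NoEv K v ∧ ∀ x : Fin d → ℤ, ∃ μ : Measure ℝ, IsFiniteMeasure μ ∧ IsSp K v x μ ∧
            (∀ E, μ {E} = 0) ∧ Tendsto (fun n => (m n : ℝ) / w (m n)
              * ∑ j ∈ Finset.Icc (-((n * m n : ℕ) : ℤ)) ((n * m n : ℕ) : ℤ),
                μ.real (cell j (m n)) ^ 2) atTop (𝓝 0) := by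
  obtain ⟨w', hw'⟩ : ∃ w' : ℕ → ℝ, w' = fun n => min (w n) n := ⟨_, rfl⟩
  have hw't : Tendsto w' atTop atTop := by
    rw [hw']
    refine tendsto_atTop.2 fun b => ?_
    filter_upwards [hw.eventually_ge_atTop b,
      (tendsto_natCast_atTop_atTop (R := ℝ)).eventually_ge_atTop b] with n h1 h2
    exact le_min h1 h2
  obtain ⟨g1, g2⟩ := gg_dense (d := d) Al.symb Al.csym Al.opr Al.dia Al.sc1 Al.cx Al.uuc Al.psi
    Al.fix Al.c1 Al.zf Al.cay Al.mzp Al.netx2 Al.semi hd hw't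
  refine ⟨GG d w', g1, g2, fun K hK => ?_⟩
  obtain ⟨m, hm, hmain⟩ := ae_conv Al.cx Al.zf Al.cay Al.mzp Al.qnt2 Al.shf hK
  have hmt : Tendsto m atTop atTop := tendsto_atTop_mono (fun n => (by
    have := hm n
    omega : n ≤ m n)) tendsto_id
  have hpos : ∀ᶠ n in atTop, 0 < w' (m n) := hmt.eventually (hw't.eventually_gt_atTop 0)
  have hle : ∀ n, w' (m n) ≤ m n := fun n => by rw [hw']; exact min_le_right _ _
  refine ⟨m, hm, fun ν _ hν => ?_⟩
  filter_upwards [hmain ν hν] with v hv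
  refine ⟨noEv Al.symb hm hpos hle hv, fun x => ?_⟩
  obtain ⟨μ, h1, h2, h3, h4⟩ := spec Al.spmu hm hpos hle hv x
  refine ⟨μ, h1, h2, h3, ?_⟩
  refine tendsto_of_tendsto_of_tendsto_of_le_of_le' tendsto_const_nhds h4 ?_ ?_
  · filter_upwards [hmt.eventually (hw.eventually_gt_atTop 0)] with n hn
    positivity
  · filter_upwards [hpos] with n hn
    refine mul_le_mul_of_nonneg_right ?_ (by positivity)
    apply div_le_div_of_nonneg_left (by positivity) hn
    rw [hw']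
    exact min_le_left _ _

end

end Pool.Agent.U281.GEN
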