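import Pool.Agent.U281.GEN.Em
import Pool.Agent.W792.WA.Stm3

/-!
Dependence of the mean square of the Green function on the symbol and on the law.
-/

set_option autoImplicit false

namespace Pool.Agent.U281.GEN

open MeasureTheory Filter Pool.Agent.W792.LL Pool.Agent.W792.WA Pool.Agent.W19.WAPsi
open Pool.Agent.W304.WA.Zfw
open scoped Topology

noncomputable section

variable {d : ℕ}

/-- Mean square of the Green function. -/
def E2 (ν : Measure ℝ) [IsProbabilityMeasure ν] (m : C(UnitAddTorus (Fin d), ℂ)) : ℝ :=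
  ∫ v, ‖gz m v‖ ^ 2 ∂(Pn ν (Fin d → ℤ))

theorem gz_meas (hCay : S_CAY) (hM : S_MZP) {m : C(UnitAddTorus (Fin d), ℂ)} (hm : ‖m‖ < 1) :
    Measurable fun v : (Fin d → ℤ) → ℝ => gz m v := by
  have h1 : Measurable fun v : (Fin d → ℤ) → ℝ => cay (v 0) :=
    hCay.2.1.measurable.comp (measurable_pi_apply 0)
  have h2 := hM d m ‖m‖ hm le_rfl
  unfold gz
  refine Measurable.const_mul ?_ _
  refine ((measurable_const.sub (Complex.continuous_conj.measurable.comp h1)).sub ?_)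
  refine Measurable.mul ?_ h2
  exact Complex.measurable_ofReal.comp ((measurable_const.sub h1).norm.pow_const 2)

theorem half_norm : ‖(1 : ℂ) / (2 * Complex.I)‖ = 1 / 2 := by
  rw [norm_div, norm_mul, Complex.norm_I]
  norm_num

theorem one_sub_cay (hCay : S_CAY) (t : ℝ) : ‖1 - cay t‖ ^ 2 ≤ 4 := by
  have h1 := norm_sub_le (1 : ℂ) (cay t)
  rw [norm_one, hCay.1] at h1
  nlinarith [norm_nonneg (1 - cay t)]

theorem gz_le (hZ : S_ZF) (hCay : S_CAY) {m : C(UnitAddTorus (Fin d), ℂ)} {q : ℝ} (h0 : 0 ≤ q)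
    (h1 : q < 1) (hm : ‖m‖ ≤ q) (v : (Fin d → ℤ) → ℝ) : ‖gz m v‖ ≤ 1 + 2 / (1 - q) := by
  have hq : 0 < 1 - q := by linarith
  have e1 := Ch.Zf_bound hZ hCay h0 h1 hm v
  have e2 := one_sub_cay hCay (v 0)
  unfold gz
  rw [norm_mul, half_norm]
  have e3 : ‖1 - (starRingEnd ℂ) (cay (v 0)) - (‖1 - cay (v 0)‖ ^ 2 : ℝ)
      * Zf m (fun x => cay (v x))‖ ≤ 2 + 4 * (1 / (1 - q)) := by
    refine (norm_sub_le _ _).trans (add_le_add ?_ ?_)
    · refine (norm_sub_le _ _).trans ?_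
      rw [norm_one, RCLike.norm_conj, hCay.1]
      norm_num
    · rw [norm_mul, Complex.norm_real, Real.norm_of_nonneg (by positivity)]
      exact mul_le_mul e2 e1 (norm_nonneg _) (by norm_num)
  calc 1 / 2 * _ ≤ 1 / 2 * (2 + 4 * (1 / (1 - q))) := mul_le_mul_of_nonneg_left e3 (by norm_num)
    _ = 1 + 2 / (1 - q) := by ring

theorem gz_sub (hCay : S_CAY) (m m' : C(UnitAddTorus (Fin d), ℂ)) (v : (Fin d → ℤ) → ℝ) :
    ‖gz m v - gz m' v‖ ≤ 2 * ‖Zf m (fun x => cay (v x)) - Zf m' (fun x => cay (v x))‖ := by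
  have e : gz m v - gz m' v = -((1 / (2 * Complex.I)) * ((‖1 - cay (v 0)‖ ^ 2 : ℝ)
      * (Zf m (fun x => cay (v x)) - Zf m' (fun x => cay (v x))))) := by
    unfold gz
    ring
  rw [e, norm_neg, norm_mul, half_norm, norm_mul, Complex.norm_real,
    Real.norm_of_nonneg (by positivity)]
  have e2 := one_sub_cay hCay (v 0)
  nlinarith [norm_nonneg (Zf m (fun x => cay (v x)) - Zf m' (fun x => cay (v x)))]

theorem sq_sub_le {B : ℝ} {a b : ℂ} (ha : ‖a‖ ≤ B) (hb : ‖b‖ ≤ B) :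
    ‖a‖ ^ 2 - ‖b‖ ^ 2 ≤ 2 * B * ‖a - b‖ := by
  have h1 : ‖a‖ - ‖b‖ ≤ ‖a - b‖ := norm_sub_norm_le a b
  have h2 : 0 ≤ ‖a - b‖ := norm_nonneg _
  have h3 := norm_nonneg a
  have h4 := norm_nonneg b
  nlinarith

theorem gz2_int (hZ : S_ZF) (hCay : S_CAY) (hM : S_MZP) (ν : Measure ℝ) [IsProbabilityMeasure ν]
    {m : C(UnitAddTorus (Fin d), ℂ)} {q : ℝ} (h0 : 0 ≤ q) (h1 : q < 1) (hm : ‖m‖ ≤ q) :
    Integrable (fun v : (Fin d → ℤ) → ℝ => ‖gz m v‖ ^ 2) (Pn ν (Fin d → ℤ)) := by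
  refine Integrable.of_bound ((gz_meas hCay hM (hm.trans_lt h1)).norm.pow_const
    2).aestronglyMeasurable ((1 + 2 / (1 - q)) ^ 2) (ae_of_all _ fun v => ?_)
  rw [Real.norm_of_nonneg (by positivity)]
  exact pow_le_pow_left₀ (norm_nonneg _) (gz_le hZ hCay h0 h1 hm v) 2

/-- Dependence on the symbol. -/
theorem E2_zf (hZ : S_ZF) (hCay : S_CAY) (hM : S_MZP) (ν : Measure ℝ) [IsProbabilityMeasure ν]
    {m m' : C(UnitAddTorus (Fin d), ℂ)} {q : ℝ} (h0 : 0 ≤ q) (h1 : q < 1) (hm : ‖m‖ ≤ q)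
    (hm' : ‖m'‖ ≤ q) :
    E2 ν m ≤ E2 ν m' + 4 * (1 + 2 / (1 - q))
      * ∫ v, ‖Zf m (fun x => cay (v x)) - Zf m' (fun x => cay (v x))‖ ∂(Pn ν (Fin d → ℤ)) := by
  have hq : 0 < 1 - q := by linarith
  have i1 := gz2_int hZ hCay hM ν h0 h1 hm
  have i2 := gz2_int hZ hCay hM ν h0 h1 hm'
  have i3 : Integrable (fun v : (Fin d → ℤ) → ℝ => ‖Zf m (fun x => cay (v x))
      - Zf m' (fun x => cay (v x))‖) (Pn ν (Fin d → ℤ)) :=
    ((Ch.Zf_int hZ hCay hM ν h0 h1 hm).sub (Ch.Zf_int hZ hCay hM ν h0 h1 hm')).norm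
  have h2 : ∫ v, ‖gz m v‖ ^ 2 ∂(Pn ν (Fin d → ℤ))
      ≤ ∫ v, (‖gz m' v‖ ^ 2 + 4 * (1 + 2 / (1 - q)) * ‖Zf m (fun x => cay (v x))
        - Zf m' (fun x => cay (v x))‖) ∂(Pn ν (Fin d → ℤ)) := by
    refine integral_mono i1 (i2.add (i3.const_mul _)) fun v => ?_
    have e1 := sq_sub_le (gz_le hZ hCay h0 h1 hm v) (gz_le hZ hCay h0 h1 hm' v)
    have e2 := gz_sub hCay m m' v
    have e3 : 0 ≤ 2 * (1 + 2 / (1 - q)) := by positivity
    have e4 := mul_le_mul_of_nonneg_left e2 e3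
    simp only []
    linarith
  rw [integral_add i2 (i3.const_mul _), integral_const_mul] at h2
  exact h2

theorem E2_lip (hZ : S_ZF) (hCay : S_CAY) (hM : S_MZP) (ν : Measure ℝ) [IsProbabilityMeasure ν]
    {m m' : C(UnitAddTorus (Fin d), ℂ)} {q : ℝ} (h0 : 0 ≤ q) (h1 : q < 1) (hm : ‖m‖ ≤ q)
    (hm' : ‖m'‖ ≤ q) :
    E2 ν m ≤ E2 ν m' + 4 * (1 + 2 / (1 - q)) * (‖m - m'‖ / (1 - q) ^ 2) := by
  have hq : 0 < 1 - q := by linarith
  refine (E2_zf hZ hCay hM ν h0 h1 hm hm').trans ?_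
  have h2 : ∫ v, ‖Zf m (fun x => cay (v x)) - Zf m' (fun x => cay (v x))‖ ∂(Pn ν (Fin d → ℤ))
      ≤ ‖m - m'‖ / (1 - q) ^ 2 := by
    calc _ ≤ ∫ _ : (Fin d → ℤ) → ℝ, ‖m - m'‖ / (1 - q) ^ 2 ∂(Pn ν (Fin d → ℤ)) :=
          integral_mono (((Ch.Zf_int hZ hCay hM ν h0 h1 hm).sub
            (Ch.Zf_int hZ hCay hM ν h0 h1 hm')).norm) (integrable_const _)
            fun v => Ch.Zf_lip hZ hCay h0 h1 hm hm' v
      _ = _ := by simp
  have h3 : 0 ≤ 4 * (1 + 2 / (1 - q)) := by positivity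
  linarith [mul_le_mul_of_nonneg_left h2 h3]

theorem gz_law (hZ : S_ZF) (hCay : S_CAY) {m : C(UnitAddTorus (Fin d), ℂ)} {q : ℝ} (h0 : 0 ≤ q)
    (h1 : q < 1) (hm : ‖m‖ ≤ q) (v v' : (Fin d → ℤ) → ℝ) :
    ‖gz m v - gz m v'‖ ≤ (1 / 2 + 1 / (1 - q)) * ‖cay (v 0) - cay (v' 0)‖
      + 2 * ‖Zf m (fun x => cay (v x)) - Zf m (fun x => cay (v' x))‖ := by
  have hq : 0 < 1 - q := by linarith
  have e : gz m v - gz m v' = -((1 / (2 * Complex.I))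
      * ((starRingEnd ℂ) (cay (v 0) - cay (v' 0))
        + ((‖1 - cay (v 0)‖ ^ 2 - ‖1 - cay (v' 0)‖ ^ 2 : ℝ) * Zf m (fun x => cay (v x))
          + (‖1 - cay (v' 0)‖ ^ 2 : ℝ)
            * (Zf m (fun x => cay (v x)) - Zf m (fun x => cay (v' x)))))) := by
    unfold gz
    rw [map_sub]
    push_cast
    ring
  rw [e, norm_neg, norm_mul, half_norm]
  have e1 := Ch.Zf_bound hZ hCay h0 h1 hm v
  have e2 := one_sub_cay hCay (v' 0)
  have e3 : |‖1 - cay (v 0)‖ ^ 2 - ‖1 - cay (v' 0)‖ ^ 2| ≤ 2 * ‖cay (v 0) - cay (v' 0)‖ := by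
    rw [(hCay.2.2.1 (v 0)).2, (hCay.2.2.1 (v' 0)).2]
    have : 2 - 2 * (cay (v 0)).re - (2 - 2 * (cay (v' 0)).re)
        = -(2 * (cay (v 0) - cay (v' 0)).re) := by
      rw [Complex.sub_re]; ring
    rw [this, abs_neg, abs_mul, abs_of_pos (by norm_num : (0 : ℝ) < 2)]
    exact mul_le_mul_of_nonneg_left (Complex.abs_re_le_norm _) (by norm_num)
  obtain ⟨δ, hδ⟩ : ∃ δ, δ = ‖cay (v 0) - cay (v' 0)‖ := ⟨_, rfl⟩
  obtain ⟨ζ, hζ⟩ : ∃ ζ, ζ = ‖Zf m (fun x => cay (v x)) - Zf m (fun x => cay (v' x))‖ := ⟨_, rfl⟩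
  have hδ0 : 0 ≤ δ := by rw [hδ]; exact norm_nonneg _
  have hζ0 : 0 ≤ ζ := by rw [hζ]; exact norm_nonneg _
  rw [← hδ] at e3
  have e4 : ‖(starRingEnd ℂ) (cay (v 0) - cay (v' 0))
        + ((‖1 - cay (v 0)‖ ^ 2 - ‖1 - cay (v' 0)‖ ^ 2 : ℝ) * Zf m (fun x => cay (v x))
          + (‖1 - cay (v' 0)‖ ^ 2 : ℝ)
            * (Zf m (fun x => cay (v x)) - Zf m (fun x => cay (v' x))))‖
      ≤ δ + (2 * δ * (1 / (1 - q)) + 4 * ζ) := by
    refine (norm_add_le _ _).trans (add_le_add ?_ ((norm_add_le _ _).trans (add_le_add ?_ ?_)))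
    · rw [RCLike.norm_conj, hδ]
    · rw [norm_mul, Complex.norm_real, Real.norm_eq_abs]
      exact mul_le_mul e3 e1 (norm_nonneg _) (by positivity)
    · rw [norm_mul, Complex.norm_real, Real.norm_of_nonneg (by positivity), ← hζ]
      exact mul_le_mul_of_nonneg_right e2 hζ0
  rw [← hδ, ← hζ]
  calc 1 / 2 * _ ≤ 1 / 2 * (δ + (2 * δ * (1 / (1 - q)) + 4 * ζ)) :=
        mul_le_mul_of_nonneg_left e4 (by norm_num)
    _ = (1 / 2 + 1 / (1 - q)) * δ + 2 * ζ := by ring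

/-- From squares to first moments. -/
theorem first_of_sq {Ω : Type} [MeasurableSpace Ω] {P : Measure Ω} [IsProbabilityMeasure P]
    {f : Ω → ℝ} {τ C : ℝ} (hτ : 0 < τ) (hm : Measurable f) (h0 : ∀ ω, 0 ≤ f ω) (hC : ∀ ω, f ω ≤ C)
    (h2 : ∫ ω, f ω ^ 2 ∂P ≤ τ ^ 2) : ∫ ω, f ω ∂P ≤ τ := by
  have i1 : Integrable f P := Integrable.of_bound hm.aestronglyMeasurable C
    (ae_of_all _ fun ω => by rw [Real.norm_of_nonneg (h0 ω)]; exact hC ω)
  have i2 : Integrable (fun ω => f ω ^ 2) P := Integrable.of_bound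
    (hm.pow_const 2).aestronglyMeasurable (C ^ 2) (ae_of_all _ fun ω => by
      rw [Real.norm_of_nonneg (by positivity)]
      exact pow_le_pow_left₀ (h0 ω) (hC ω) 2)
  have h3 : ∫ ω, f ω ∂P ≤ ∫ ω, (f ω ^ 2 / (2 * τ) + τ / 2) ∂P := by
    refine integral_mono i1 ((i2.div_const _).add (integrable_const _)) fun ω => ?_
    have h4 : f ω ^ 2 / (2 * τ) + τ / 2 - f ω = (f ω - τ) ^ 2 / (2 * τ) := by
      field_simp
      ring
    have h5 : 0 ≤ (f ω - τ) ^ 2 / (2 * τ) := by positivity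
    show f ω ≤ f ω ^ 2 / (2 * τ) + τ / 2
    linarith
  rw [integral_add (i2.div_const _) (integrable_const _), integral_div, integral_const] at h3
  simp only [probReal_univ, one_smul] at h3
  have h4 : (∫ ω, f ω ^ 2 ∂P) / (2 * τ) ≤ τ / 2 := by
    rw [div_le_iff₀ (by positivity)]
    nlinarith
  linarith

theorem cd_first (hCay : S_CAY) {X Y : MX} {τ : ℝ} (hτ : 0 < τ) (h : cd X Y ≤ τ ^ 2) :
    ∫ u in Set.Ioc (0 : ℝ) 1, ‖cay (X.1 u) - cay (Y.1 u)‖ ≤ τ := by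
  have : IsProbabilityMeasure (volume.restrict (Set.Ioc (0 : ℝ) 1)) := ⟨by simp⟩
  refine first_of_sq (C := 2) hτ ?_ (fun u => norm_nonneg _) (fun u => ?_) h
  · exact ((hCay.2.1.measurable.comp X.2).sub (hCay.2.1.measurable.comp Y.2)).norm
  · calc ‖cay (X.1 u) - cay (Y.1 u)‖ ≤ ‖cay (X.1 u)‖ + ‖cay (Y.1 u)‖ := norm_sub_le _ _
      _ = 2 := by rw [hCay.1, hCay.1]; norm_num

theorem three_terms {Ω : Type} [MeasurableSpace Ω] {P : Measure Ω} {F G H I : Ω → ℝ} {a b : ℝ}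
    (hF : Integrable F P) (hG : Integrable G P) (hH : Integrable H P) (hI : Integrable I P)
    (h : ∀ ω, F ω ≤ G ω + (a * H ω + b * I ω)) :
    ∫ ω, F ω ∂P ≤ ∫ ω, G ω ∂P + (a * ∫ ω, H ω ∂P + b * ∫ ω, I ω ∂P) := by
  have i1 : Integrable (fun ω => a * H ω + b * I ω) P := (hH.const_mul a).add (hI.const_mul b)
  have h2 : ∫ ω, F ω ∂P ≤ ∫ ω, (G ω + (a * H ω + b * I ω)) ∂P :=
    integral_mono hF (hG.add i1) h
  rw [integral_add hG i1,
    integral_add (hH.const_mul a) (hI.const_mul b), integral_const_mul, integral_const_mul] at h2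
  exact h2

theorem E2_eq (hCay : S_CAY) (hM : S_MZP) {m : C(UnitAddTorus (Fin d), ℂ)} (hm : ‖m‖ < 1)
    (Z : MX) : E2 (qlaw Z) m = ∫ u, ‖gz m (fun x => Z.1 (u x))‖ ^ 2 ∂(PP (Fin d → ℤ)) := by
  unfold E2
  rw [Pn_qlaw]
  exact integral_map (meas_comp Z _).aemeasurable
    ((gz_meas hCay hM hm).norm.pow_const 2).aestronglyMeasurable

theorem mean0 (hCay : S_CAY) {X Y : MX} {τ : ℝ} (hτ : 0 < τ) (hcd : cd X Y ≤ τ ^ 2) :
    ∫ u, ‖cay (X.1 (u 0)) - cay (Y.1 (u 0))‖ ∂(PP (Fin d → ℤ)) ≤ τ := by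
  have h2 := cd_first hCay hτ hcd
  have h3 : MeasurePreserving (fun u : (Fin d → ℤ) → ℝ => u 0) (PP (Fin d → ℤ)) lb :=
    measurePreserving_eval_infinitePi (fun _ : Fin d → ℤ => lb) 0
  have h4 : ∫ t, ‖cay (X.1 t) - cay (Y.1 t)‖
      ∂(Measure.map (fun u : (Fin d → ℤ) → ℝ => u 0) (PP (Fin d → ℤ)))
      = ∫ u, ‖cay (X.1 (u 0)) - cay (Y.1 (u 0))‖ ∂(PP (Fin d → ℤ)) :=
    integral_map h3.measurable.aemeasurable
      ((hCay.2.1.measurable.comp X.2).sub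
        (hCay.2.1.measurable.comp Y.2)).norm.aestronglyMeasurable
  rw [h3.map_eq] at h4
  rw [← h4]
  exact h2

/-- Dependence on the law. -/
theorem E2_law (hC : S_CSYM) (hO : S_OPR) (hD : S_DIA) (hZ : S_ZF) (hCay : S_CAY) (hM : S_MZP)
    {q : ℝ} (h0 : 0 ≤ q) (h1 : q < 1) : ∃ L : ℝ, 0 < L ∧ ∀ (X Y : MX) (τ : ℝ), 0 < τ →
      cd X Y ≤ τ ^ 2 → ∀ m : C(UnitAddTorus (Fin d), ℂ), ‖m‖ ≤ q →
      E2 (qlaw X) m ≤ E2 (qlaw Y) m + L * τ := by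
  have hq : 0 < 1 - q := by linarith
  obtain ⟨B, hB⟩ : ∃ B, B = 1 + 2 / (1 - q) := ⟨_, rfl⟩
  have hB0 : 0 < B := by rw [hB]; positivity
  obtain ⟨A, hA⟩ : ∃ A, A = ((1 + q) / (1 - q)) ^ 2 / (1 - q) ^ 2 := ⟨_, rfl⟩
  have hA0 : 0 < A := by rw [hA]; positivity
  obtain ⟨D, hDd⟩ : ∃ D, D = 1 / 2 + 1 / (1 - q) := ⟨_, rfl⟩
  have hD0 : 0 < D := by rw [hDd]; positivity
  refine ⟨2 * B * D + 2 * B * 2 * A, by positivity, ?_⟩
  intro X Y τ hτ hcd m hm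
  have hmZ : ∀ Z : MX, Measurable fun u : (Fin d → ℤ) → ℝ => gz m (fun x => Z.1 (u x)) := by
    intro Z
    have k1 := gz_meas hCay hM (hm.trans_lt h1)
    have k2 := k1.comp (meas_comp Z (Fin d → ℤ))
    exact k2
  have hZZ : ∀ Z : MX, Measurable fun u : (Fin d → ℤ) → ℝ => Zf m (fun x => cay (Z.1 (u x))) := by
    intro Z
    have k1 := hM d m q h1 hm
    have k2 := k1.comp (meas_comp Z (Fin d → ℤ))
    exact k2
  have gB : ∀ v : (Fin d → ℤ) → ℝ, ‖gz m v‖ ≤ B := by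
    intro v
    rw [hB]
    exact gz_le hZ hCay h0 h1 hm v
  have i0 : ∀ Z : MX, Integrable (fun u : (Fin d → ℤ) → ℝ => ‖gz m (fun x => Z.1 (u x))‖ ^ 2)
      (PP (Fin d → ℤ)) := by
    intro Z
    refine Integrable.of_bound ((hmZ Z).norm.pow_const 2).aestronglyMeasurable (B ^ 2)
      (ae_of_all _ fun u => ?_)
    rw [Real.norm_of_nonneg (sq_nonneg _)]
    exact pow_le_pow_left₀ (norm_nonneg _) (gB _) 2
  have hc2 : ∀ t t' : ℝ, ‖cay t - cay t'‖ ≤ 2 := by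
    intro t t'
    calc ‖cay t - cay t'‖ ≤ ‖cay t‖ + ‖cay t'‖ := norm_sub_le _ _
      _ = 2 := by rw [hCay.1, hCay.1]; norm_num
  have mc : Measurable fun u : (Fin d → ℤ) → ℝ => ‖cay (X.1 (u 0)) - cay (Y.1 (u 0))‖ :=
    ((hCay.2.1.measurable.comp (X.2.comp (measurable_pi_apply 0))).sub
      (hCay.2.1.measurable.comp (Y.2.comp (measurable_pi_apply 0)))).norm
  have i1 : Integrable (fun u : (Fin d → ℤ) → ℝ => ‖cay (X.1 (u 0)) - cay (Y.1 (u 0))‖)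
      (PP (Fin d → ℤ)) := Integrable.of_bound mc.aestronglyMeasurable 2 (ae_of_all _ fun u => by
        rw [norm_norm]; exact hc2 _ _)
  have hZb : ∀ u : (Fin d → ℤ) → ℝ, ‖Zf m (fun x => cay (X.1 (u x)))
      - Zf m (fun x => cay (Y.1 (u x)))‖ ≤ 2 * (1 / (1 - q)) := by
    intro u
    have e1 := Ch.Zf_bound hZ hCay h0 h1 hm (fun x => X.1 (u x))
    have e2 := Ch.Zf_bound hZ hCay h0 h1 hm (fun x => Y.1 (u x))
    calc _ ≤ ‖Zf m (fun x => cay (X.1 (u x)))‖ + ‖Zf m (fun x => cay (Y.1 (u x)))‖ :=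
          norm_sub_le _ _
      _ ≤ 2 * (1 / (1 - q)) := by linarith
  have i2 : Integrable (fun u : (Fin d → ℤ) → ℝ => ‖Zf m (fun x => cay (X.1 (u x)))
      - Zf m (fun x => cay (Y.1 (u x)))‖) (PP (Fin d → ℤ)) :=
    Integrable.of_bound (((hZZ X).sub (hZZ Y)).norm).aestronglyMeasurable (2 * (1 / (1 - q)))
      (ae_of_all _ fun u => by rw [norm_norm]; exact hZb u)
  have a1 := mean0 (d := d) hCay hτ hcd
  have a2 := mean_diff hC hO hD hCay h0 h1 X Y τ hτ.le hcd m hm ((hZZ X).sub (hZZ Y)) _ hZb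
  rw [← hA] at a2
  have h2 := three_terms (a := 2 * B * D) (b := 2 * B * 2) (i0 X) (i0 Y) i1 i2 (fun u => by
    have e1 := sq_sub_le (gB fun x => X.1 (u x)) (gB fun x => Y.1 (u x))
    have e2 := gz_law hZ hCay h0 h1 hm (fun x => X.1 (u x)) (fun x => Y.1 (u x))
    rw [← hDd] at e2
    have e4 := mul_le_mul_of_nonneg_left e2 (by positivity : 0 ≤ 2 * B)
    linarith)
  rw [← E2_eq hCay hM (hm.trans_lt h1) X, ← E2_eq hCay hM (hm.trans_lt h1) Y] at h2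
  have h3 := mul_le_mul_of_nonneg_left a1 (by positivity : 0 ≤ 2 * B * D)
  have h4 := mul_le_mul_of_nonneg_left a2 (by positivity : 0 ≤ 2 * B * 2)
  have h5 := h2.trans (add_le_add le_rfl (add_le_add h3 h4))
  refine h5.trans (le_of_eq ?_)
  ring

/-- The variance of `cay` depends continuously on the law. -/
theorem vr_law (hCay : S_CAY) {X Y : MX} {τ : ℝ} (hτ : 0 < τ) (h : cd X Y ≤ τ ^ 2) :
    vr (qlaw X) - 2 * τ ≤ vr (qlaw Y) := by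
  have i0 : IsProbabilityMeasure (volume.restrict (Set.Ioc (0 : ℝ) 1)) := ⟨by simp⟩
  have h1 : ∀ Z : MX, ∫ x, cay x ∂(qlaw Z) = ∫ u in Set.Ioc (0 : ℝ) 1, cay (Z.1 u) := by
    intro Z
    unfold qlaw
    rw [integral_map Z.2.aemeasurable hCay.2.1.measurable.aestronglyMeasurable]
  have hi : ∀ Z : MX, Integrable (fun u => cay (Z.1 u)) (volume.restrict (Set.Ioc (0 : ℝ) 1)) :=
    fun Z => Integrable.of_bound (hCay.2.1.measurable.comp Z.2).aestronglyMeasurable 1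
      (ae_of_all _ fun u => (hCay.1 _).le)
  have h2 : ‖(∫ x, cay x ∂(qlaw Y)) - ∫ x, cay x ∂(qlaw X)‖ ≤ τ := by
    rw [h1, h1, ← integral_sub (hi Y) (hi X)]
    refine (norm_integral_le_integral_norm _).trans ?_
    simp_rw [norm_sub_rev]
    exact cd_first hCay hτ h
  have h3 : ∀ Z : MX, ‖∫ x, cay x ∂(qlaw Z)‖ ≤ 1 := by
    intro Z
    refine (norm_integral_le_of_norm_le_const (C := 1) (ae_of_all _ fun x => (hCay.1 x).le)).trans
      (by simp)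
  have h4 := norm_sub_norm_le (∫ x, cay x ∂(qlaw Y)) (∫ x, cay x ∂(qlaw X))
  have h5 := h3 X
  have h6 := h3 Y
  have h7 := norm_nonneg (∫ x, cay x ∂(qlaw X))
  have h8 := norm_nonneg (∫ x, cay x ∂(qlaw Y))
  unfold vr
  nlinarith

end

end Pool.Agent.U281.GEN
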