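import Pool.Agent.W19.WAPsi
import Pool.Agent.W792.WA.Stm

/-!
The resolvent of the effective medium in terms of bounded operators.
-/

set_option autoImplicit false

namespace Pool.Agent.U281.GEN

open MeasureTheory Pool.Agent.W792.LL Pool.Agent.W792.WA Pool.Agent.W19.WAPsi
open scoped Topology

noncomputable section

variable {d : ℕ}

/-- The Green function at the origin. -/
def gz (m : C(UnitAddTorus (Fin d), ℂ)) (v : (Fin d → ℤ) → ℝ) : ℂ :=
  (1 / (2 * Complex.I)) * (1 - (starRingEnd ℂ) (cay (v 0))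
    - (‖1 - cay (v 0)‖ ^ 2 : ℝ) * Zf m (fun x => cay (v x)))

/-- The resolvent. -/
def Gop (m : C(UnitAddTorus (Fin d), ℂ)) (v : (Fin d → ℤ) → ℝ) (f : l2 (Fin d → ℤ)) :
    l2 (Fin d → ℤ) :=
  (Complex.I / 2) • (rsv m v (f - opr m f) - dc v (rsv m v (f - opr m f)))

theorem opr_one_sub (m : C(UnitAddTorus (Fin d), ℂ)) (f : l2 (Fin d → ℤ)) :
    opr (1 - m) f = f - opr m f := by
  rw [opr_sub, opr_one]
  rfl

/-- inner products of symbols -/
theorem inn2 (hS : S_SYMB) (a b : C(UnitAddTorus (Fin d), ℂ)) (u v : l2 (Fin d → ℤ)) :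
    inner ℂ (opr a u) (opr b v) = inner ℂ u (opr (star a * b) v) := (hS d).1 a b u v

theorem inn1 (hS : S_SYMB) (a : C(UnitAddTorus (Fin d), ℂ)) (u v : l2 (Fin d → ℤ)) :
    inner ℂ (opr a u) v = inner ℂ u (opr (star a) v) := by
  have h := inn2 hS a 1 u v
  rw [opr_one, mul_one] at h
  exact h

theorem nsq_re (y : l2 (Fin d → ℤ)) : (inner ℂ y y : ℂ).re = ‖y‖ ^ 2 := by
  rw [inn_self, Complex.ofReal_re]

theorem nsq_opr (hS : S_SYMB) (a : C(UnitAddTorus (Fin d), ℂ)) (y : l2 (Fin d → ℤ)) :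
    ‖opr a y‖ ^ 2 = (inner ℂ y (opr (star a * a) y) : ℂ).re := by
  rw [← inn2 hS, nsq_re]

/-- The imaginary part of the resolvent. -/
theorem im_gop (hC : S_CSYM) {m n : C(UnitAddTorus (Fin d), ℂ)} (hm : ‖m‖ < 1)
    (hn : n * (1 - m) = 1) (v : (Fin d → ℤ) → ℝ) (f : l2 (Fin d → ℤ)) :
    (inner ℂ f (Gop m v f) : ℂ).im = ‖opr n (Gop m v f)‖ ^ 2 - ‖opr (m * n) (Gop m v f)‖ ^ 2 := by
  obtain ⟨y, hy⟩ : ∃ y, y = Gop m v f := ⟨_, rfl⟩
  obtain ⟨p, hp⟩ : ∃ p, p = rsv m v (f - opr m f) := ⟨_, rfl⟩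
  obtain ⟨x, hx⟩ : ∃ x, x = dc v p := ⟨_, rfl⟩
  have e1 : p = (f - opr m f) + opr m x := by
    rw [hx, hp]
    exact psv_eq hC m hm (f - opr m f) v
  have e2 : y = (Complex.I / 2) • (p - x) := by rw [hy, hx, hp]; rfl
  have e3 : p - x = (-2 * Complex.I) • y := by
    rw [e2, smul_smul]
    have : -2 * Complex.I * (Complex.I / 2) = 1 := by
      have := Complex.I_mul_I
      linear_combination (-1 : ℂ) * this
    rw [this, one_smul]
  have e4 : x - opr m x = (f - opr m f) + (2 * Complex.I) • y := by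
    have h1 : x = p - (p - x) := by abel
    calc x - opr m x = p - (p - x) - opr m x := by rw [← h1]
      _ = ((f - opr m f) + opr m x) - (p - x) - opr m x := by rw [← e1]
      _ = (f - opr m f) - (p - x) := by abel
      _ = (f - opr m f) + (2 * Complex.I) • y := by
          rw [e3, neg_mul, neg_smul, sub_neg_eq_add]
  have hnn : ∀ w : l2 (Fin d → ℤ), opr n (w - opr m w) = w := by
    intro w
    have h1 : opr (n * (1 - m)) w = w := by rw [hn, opr_one]; rfl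
    rw [opr_mul] at h1
    have h2 : (opr n * opr (1 - m) : l2 (Fin d → ℤ) →L[ℂ] l2 (Fin d → ℤ)) w
        = opr n (opr (1 - m) w) := rfl
    rw [← opr_one_sub, ← h2]
    exact h1
  have e5 : x = f + (2 * Complex.I) • opr n y := by
    have h1 := hnn x
    rw [e4, map_add, hnn f, map_smul] at h1
    exact h1.symm
  have e6 : opr (m * n) y = opr n y - y := by
    have h1 : m * n = n - 1 := by
      have : n - n * m = 1 := by rw [← hn]; ring
      rw [← this]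
      ring
    rw [h1, opr_sub, opr_one]
    rfl
  have e7 : p = f + (2 * Complex.I) • opr (m * n) y := by
    have h1 : p = x + (p - x) := by abel
    rw [h1, e3, e5, e6, smul_sub, neg_mul, neg_smul]
    abel
  have e8 : ‖x‖ = ‖p‖ := by rw [hx]; exact dc_norm v p
  have key : ∀ w : l2 (Fin d → ℤ), ‖f + (2 * Complex.I) • w‖ ^ 2
      = ‖f‖ ^ 2 + 4 * ‖w‖ ^ 2 - 4 * (inner ℂ f w : ℂ).im := by
    intro w
    rw [← nsq_re, inner_add_left, inner_add_right, inner_add_right, Complex.add_re, Complex.add_re,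
      Complex.add_re, nsq_re]
    rw [inner_smul_right, inner_smul_left, inner_smul_left, inner_smul_right]
    have h1 : (inner ℂ w f : ℂ) = (starRingEnd ℂ) (inner ℂ f w) := (inner_conj_symm w f).symm
    rw [h1, inn_self w]
    obtain ⟨q, hq⟩ : ∃ q : ℂ, q = inner ℂ f w := ⟨_, rfl⟩
    obtain ⟨t, ht⟩ : ∃ t : ℝ, t = ‖w‖ ^ 2 := ⟨_, rfl⟩
    rw [← hq, ← ht]
    simp
    ring
  have e9 : ‖f + (2 * Complex.I) • opr n y‖ ^ 2 = ‖f + (2 * Complex.I) • opr (m * n) y‖ ^ 2 := by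
    rw [← e5, ← e7, e8]
  rw [key, key] at e9
  have e10 : (inner ℂ f (opr n y) : ℂ).im - (inner ℂ f (opr (m * n) y) : ℂ).im
      = (inner ℂ f y : ℂ).im := by
    rw [e6, inner_sub_right, Complex.sub_im]
    ring
  rw [← hy]
  linarith

/-- Bounds by the imaginary part. -/
theorem gop_le (hS : S_SYMB) (hC : S_CSYM) {m n b : C(UnitAddTorus (Fin d), ℂ)} (hm : ‖m‖ < 1)
    (hn : n * (1 - m) = 1) {c : ℝ} (hb : ∀ k, ‖b k‖ ^ 2 ≤ c * (‖n k‖ ^ 2 * (1 - ‖m k‖ ^ 2)))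
    (v : (Fin d → ℤ) → ℝ) (f : l2 (Fin d → ℤ)) :
    ‖opr b (Gop m v f)‖ ^ 2 ≤ c * (inner ℂ f (Gop m v f) : ℂ).im := by
  rw [im_gop hC hm hn v f, nsq_opr hS, nsq_opr hS, nsq_opr hS]
  obtain ⟨y, hy⟩ : ∃ y, y = Gop m v f := ⟨_, rfl⟩
  rw [← hy]
  have h1 := ((hS d).2.2.1 ((c : ℂ) • (star n * n - star (m * n) * (m * n)) - star b * b)).2
    (fun k => by
      have e1 : (((c : ℂ) • (star n * n - star (m * n) * (m * n)) - star b * b
          : C(UnitAddTorus (Fin d), ℂ)) k)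
          = (c : ℂ) * ((starRingEnd ℂ) (n k) * n k - (starRingEnd ℂ) (m k * n k) * (m k * n k))
            - (starRingEnd ℂ) (b k) * b k := rfl
      have e2 : ∀ w : ℂ, (starRingEnd ℂ) w * w = ((‖w‖ ^ 2 : ℝ) : ℂ) := by
        intro w
        rw [← Complex.normSq_eq_conj_mul_self, Complex.normSq_eq_norm_sq]
      rw [e1, e2, e2, e2, ← Complex.ofReal_sub, ← Complex.ofReal_mul, ← Complex.ofReal_sub,
        Complex.ofReal_re, norm_mul]
      have := hb k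
      nlinarith) y
  rw [opr_sub, opr_smul, opr_sub] at h1
  have e3 : ((c : ℂ) • (opr (star n * n) - opr (star (m * n) * (m * n))) - opr (star b * b)) y
      = (c : ℂ) • (opr (star n * n) y - opr (star (m * n) * (m * n)) y) - opr (star b * b) y := rfl
  rw [e3, inner_sub_right, inner_smul_right, inner_sub_right, Complex.sub_re, Complex.re_ofReal_mul,
    Complex.sub_re] at h1
  linarith

/-- Expectation of the resolvent. -/
def Gs (ν : Measure ℝ) [IsProbabilityMeasure ν] (m : C(UnitAddTorus (Fin d), ℂ)) :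
    C(UnitAddTorus (Fin d), ℂ) := (Complex.I / 2) • ((aa ν m - csym ν m) * (1 - m))

theorem gop_bm (hC : S_CSYM) {m : C(UnitAddTorus (Fin d), ℂ)} (hm : ‖m‖ < 1)
    (f : l2 (Fin d → ℤ)) : BM fun v : (Fin d → ℤ) → ℝ => Gop m v f := by
  obtain ⟨h1, K, hK⟩ := (psv_bm hC m hm (f - opr m f)).sub (chi_bm hC m hm (f - opr m f))
  refine ⟨h1.fun_const_smul (Complex.I / 2), ‖Complex.I / 2‖ * K, fun v => ?_⟩
  unfold Gop
  rw [norm_smul]
  exact mul_le_mul_of_nonneg_left (hK v) (norm_nonneg _)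

theorem ex_gop (hC : S_CSYM) (ν : Measure ℝ) [IsProbabilityMeasure ν]
    {m : C(UnitAddTorus (Fin d), ℂ)} (hm : ‖m‖ < 1) (f : l2 (Fin d → ℤ)) :
    Ex (Pn ν (Fin d → ℤ)) (fun v => Gop m v f) = opr (Gs ν m) f := by
  have h1 := (psv_bm hC m hm (f - opr m f)).int (P := Pn ν (Fin d → ℤ))
  have h2 := (chi_bm hC m hm (f - opr m f)).int (P := Pn ν (Fin d → ℤ))
  have h3 := ex_psv ν hC m hm (f - opr m f)
  have h4 := ex_chi ν hC m hm (f - opr m f)
  unfold Ex at h3 h4 ⊢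
  unfold Gop
  have h5 : ∫ v, (Complex.I / 2) • (psv m (f - opr m f) v - chi m (f - opr m f) v)
      ∂(Pn ν (Fin d → ℤ)) = (Complex.I / 2) • (opr (aa ν m) (f - opr m f)
        - opr (csym ν m) (f - opr m f)) := by
    refine (integral_smul _ _).trans ?_
    exact congrArg (fun y => (Complex.I / 2) • y)
      ((integral_sub h1 h2).trans (congrArg₂ (fun y z => y - z) h3 h4))
  refine h5.trans ?_
  unfold Gs
  rw [opr_smul, opr_mul, opr_sub (aa ν m), ← opr_one_sub]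
  rfl

theorem ex_inner (hC : S_CSYM) (ν : Measure ℝ) [IsProbabilityMeasure ν]
    {m : C(UnitAddTorus (Fin d), ℂ)} (hm : ‖m‖ < 1) (h f : l2 (Fin d → ℤ)) :
    ∫ v, (inner ℂ h (Gop m v f) : ℂ) ∂(Pn ν (Fin d → ℤ)) = inner ℂ h (opr (Gs ν m) f) := by
  rw [← ex_gop hC ν hm f]
  exact integral_inner (gop_bm hC hm f).int h

theorem im_int {Ω : Type} [MeasurableSpace Ω] {P : Measure Ω} {F : Ω → ℂ} (hF : Integrable F P) :
    ∫ v, (F v).im ∂P = (∫ v, F v ∂P).im := integral_im hF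

/-- Bound of the imaginary part by the symbol. -/
theorem im_symb (hS : S_SYMB) {a : C(UnitAddTorus (Fin d), ℂ)} {c : ℝ} (ha : ∀ k, (a k).im ≤ c)
    (u : l2 (Fin d → ℤ)) : (inner ℂ u (opr a u) : ℂ).im ≤ c * ‖u‖ ^ 2 := by
  have h1 := ((hS d).2.2.1 ((c : ℂ) • (1 : C(UnitAddTorus (Fin d), ℂ)) + Complex.I • a)).2
    (fun k => by
      have e1 : (((c : ℂ) • (1 : C(UnitAddTorus (Fin d), ℂ)) + Complex.I • a
          : C(UnitAddTorus (Fin d), ℂ)) k) = (c : ℂ) * 1 + Complex.I * a k := rfl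
      rw [e1]
      simp
      exact ha k) u
  rw [opr_add, opr_smul, opr_smul, opr_one] at h1
  have e2 : ((c : ℂ) • (1 : l2 (Fin d → ℤ) →L[ℂ] l2 (Fin d → ℤ)) + Complex.I • opr a) u
      = (c : ℂ) • u + Complex.I • opr a u := rfl
  rw [e2, inner_add_right, inner_smul_right, inner_smul_right, Complex.add_re,
    Complex.re_ofReal_mul, nsq_re] at h1
  simp at h1
  linarith

/-- The adjoint bound. -/
theorem adj_le (G : l2 (Fin d → ℤ) →L[ℂ] l2 (Fin d → ℤ)) {η : ℝ} (hη : 0 < η)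
    (hG : ∀ f, ‖G f‖ ^ 2 ≤ 1 / η * (inner ℂ f (G f) : ℂ).im) (h f : l2 (Fin d → ℤ)) :
    ‖(inner ℂ h (G f) : ℂ)‖ ^ 2 ≤ 1 / η * (inner ℂ h (G h) : ℂ).im * ‖f‖ ^ 2 := by
  obtain ⟨c, hc⟩ : ∃ c : ℂ, c = Complex.I / (2 * η) := ⟨_, rfl⟩
  have hη' : (η : ℂ) ≠ 0 := by exact_mod_cast hη.ne'
  have hcn : ‖c‖ = 1 / (2 * η) := by
    rw [hc, norm_div, Complex.norm_I, norm_mul, Complex.norm_real, Real.norm_of_nonneg hη.le]
    norm_num
  have hcre : c.re = 0 := by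
    rw [hc, show (2 * (η : ℂ)) = ((2 * η : ℝ) : ℂ) by push_cast; ring, Complex.div_ofReal_re]
    simp
  have hcim : c.im = 1 / (2 * η) := by
    rw [hc, show (2 * (η : ℂ)) = ((2 * η : ℝ) : ℂ) by push_cast; ring, Complex.div_ofReal_im]
    simp
  set D : l2 (Fin d → ℤ) →L[ℂ] l2 (Fin d → ℤ) := G - c • 1 with hD
  have hDf : ∀ f, D f = G f - c • f := fun f => rfl
  have d1 : ∀ f, ‖D f‖ ≤ 1 / (2 * η) * ‖f‖ := by
    intro f
    have h1 : ‖D f‖ ^ 2 = ‖G f‖ ^ 2 - 1 / η * (inner ℂ f (G f) : ℂ).im + 1 / (4 * η ^ 2) * ‖f‖ ^ 2 := by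
      rw [hDf, ← nsq_re, inner_sub_left, inner_sub_right, inner_sub_right, inner_smul_left,
        inner_smul_left, inner_smul_right, inner_smul_right]
      have h2 : (inner ℂ (G f) f : ℂ) = (starRingEnd ℂ) (inner ℂ f (G f)) :=
        (inner_conj_symm (G f) f).symm
      rw [h2, Complex.sub_re, Complex.sub_re, Complex.sub_re, nsq_re, inn_self f]
      obtain ⟨q, hq⟩ : ∃ q : ℂ, q = inner ℂ f (G f) := ⟨_, rfl⟩
      obtain ⟨t, ht⟩ : ∃ t : ℝ, t = ‖f‖ ^ 2 := ⟨_, rfl⟩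
      obtain ⟨t', ht'⟩ : ∃ t : ℝ, t = ‖G f‖ ^ 2 := ⟨_, rfl⟩
      rw [← hq, ← ht, ← ht']
      simp [hcre, hcim]
      field_simp
      ring
    have h3 : ‖D f‖ ^ 2 ≤ (1 / (2 * η) * ‖f‖) ^ 2 := by
      rw [h1, mul_pow, div_pow]
      have := hG f
      have e : (1 : ℝ) ^ 2 / (2 * η) ^ 2 = 1 / (4 * η ^ 2) := by ring
      rw [e]
      linarith
    exact (pow_le_pow_iff_left₀ (norm_nonneg _) (by positivity) two_ne_zero).1 h3
  have d2 : ‖D‖ ≤ 1 / (2 * η) := D.opNorm_le_bound (by positivity) d1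
  have d3 : ‖(ContinuousLinearMap.adjoint D) h‖ ≤ 1 / (2 * η) * ‖h‖ := by
    refine ((ContinuousLinearMap.adjoint D).le_opNorm h).trans ?_
    rw [LinearIsometryEquiv.norm_map]
    exact mul_le_mul_of_nonneg_right d2 (norm_nonneg _)
  set p := (ContinuousLinearMap.adjoint D) h with hp
  have d4 : ∀ f, (inner ℂ h (G f) : ℂ) = inner ℂ (p - c • h) f := by
    intro f
    have h1 : G f = D f + c • f := by rw [hDf]; abel
    rw [h1, inner_add_right, inner_sub_left, hp, ContinuousLinearMap.adjoint_inner_left,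
      inner_smul_right, inner_smul_left]
    have h2 : (starRingEnd ℂ) c = -c := by
      apply Complex.ext
      · rw [Complex.conj_re, Complex.neg_re, hcre, neg_zero]
      · rw [Complex.conj_im, Complex.neg_im]
    rw [h2]
    ring
  have d5 : ‖p - c • h‖ ^ 2 ≤ 1 / η * (inner ℂ h (G h) : ℂ).im := by
    have h1 : ‖p - c • h‖ ^ 2 = ‖p‖ ^ 2 + 1 / (4 * η ^ 2) * ‖h‖ ^ 2
        + 1 / η * (inner ℂ p h : ℂ).im := by
      rw [← nsq_re, inner_sub_left, inner_sub_right, inner_sub_right, inner_smul_left,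
        inner_smul_left, inner_smul_right, inner_smul_right]
      have h2 : (inner ℂ h p : ℂ) = (starRingEnd ℂ) (inner ℂ p h) := (inner_conj_symm h p).symm
      rw [h2, Complex.sub_re, Complex.sub_re, Complex.sub_re, nsq_re, inn_self h]
      obtain ⟨q, hq⟩ : ∃ q : ℂ, q = inner ℂ p h := ⟨_, rfl⟩
      obtain ⟨t, ht⟩ : ∃ t : ℝ, t = ‖h‖ ^ 2 := ⟨_, rfl⟩
      obtain ⟨t', ht'⟩ : ∃ t : ℝ, t = ‖p‖ ^ 2 := ⟨_, rfl⟩
      rw [← hq, ← ht, ← ht']
      simp [hcre, hcim]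
      field_simp
      ring
    have h2 : (inner ℂ h (G h) : ℂ).im = (inner ℂ p h : ℂ).im + 1 / (2 * η) * ‖h‖ ^ 2 := by
      rw [d4 h, inner_sub_left, inner_smul_left, Complex.sub_im, inn_self h]
      obtain ⟨t, ht⟩ : ∃ t : ℝ, t = ‖h‖ ^ 2 := ⟨_, rfl⟩
      rw [← ht]
      simp [hcre, hcim]
    have h3 : ‖p‖ ^ 2 ≤ 1 / (4 * η ^ 2) * ‖h‖ ^ 2 := by
      have := pow_le_pow_left₀ (norm_nonneg _) d3 2
      rw [mul_pow, div_pow] at this
      have e : (1 : ℝ) ^ 2 / (2 * η) ^ 2 = 1 / (4 * η ^ 2) := by ring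
      rwa [e] at this
    rw [h1, h2]
    have e : 1 / η * ((inner ℂ p h : ℂ).im + 1 / (2 * η) * ‖h‖ ^ 2)
        = 1 / η * (inner ℂ p h : ℂ).im + 2 * (1 / (4 * η ^ 2) * ‖h‖ ^ 2) := by
      field_simp
      ring
    rw [e]
    linarith
  rw [d4 f]
  have h1 := norm_inner_le_norm (𝕜 := ℂ) (p - c • h) f
  calc ‖(inner ℂ (p - c • h) f : ℂ)‖ ^ 2 ≤ (‖p - c • h‖ * ‖f‖) ^ 2 :=
        pow_le_pow_left₀ (norm_nonneg _) h1 2
    _ = ‖p - c • h‖ ^ 2 * ‖f‖ ^ 2 := mul_pow _ _ 2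
    _ ≤ _ := mul_le_mul_of_nonneg_right d5 (by positivity)

end

end Pool.Agent.U281.GEN
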