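import Pool.Agent.U281.GEN.Op

/-!
The resolvent of the effective medium: two-sided bounds and Heinz's inequality.
-/

set_option autoImplicit false

namespace Pool.Agent.U281.GEN

open MeasureTheory Pool.Agent.W792.LL Pool.Agent.W792.WA Pool.Agent.W19.WAPsi
open scoped Topology

noncomputable section

/-- Heinz's inequality for a conjugation by an invertible self-adjoint operator. -/
theorem heinz {H : Type} [NormedAddCommGroup H] [InnerProductSpace ℂ H] [CompleteSpace H]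
    {B B' G : H →L[ℂ] H} (h1 : B * B' = 1) (h2 : B' * B = 1) (hB : star B = B)
    (hB' : star B' = B') {b : ℝ} (hb : 0 ≤ b) (hx : ‖B * G * B'‖ ≤ b) (hy : ‖B' * G * B‖ ≤ b) :
    ‖G‖ ≤ b := by
  obtain ⟨P, hP⟩ : ∃ P, P = star G * G := ⟨_, rfl⟩
  have hPs : IsSelfAdjoint P := by rw [hP]; exact IsSelfAdjoint.star_mul_self G
  have e1 : B * P * B' = star (B' * G * B) * (B * G * B') := by
    rw [star_mul, star_mul, hB, hB', hP]
    calc B * (star G * G) * B' = B * (star G * 1 * (G * B')) := by noncomm_ring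
      _ = B * (star G * (B' * B) * (G * B')) := by rw [h2]
      _ = _ := by noncomm_ring
  have n1 : ‖B * P * B'‖ ≤ b ^ 2 := by
    rw [e1, sq]
    refine (norm_mul_le _ _).trans ?_
    rw [norm_star]
    exact mul_le_mul hy hx (norm_nonneg _) hb
  have e2 : ∀ n : ℕ, B * P ^ n * B' = (B * P * B') ^ n := by
    intro n
    induction n with
    | zero => simp [h1]
    | succ n ih =>
      rw [pow_succ, pow_succ, ← ih]
      calc B * (P ^ n * P) * B' = B * P ^ n * 1 * P * B' := by noncomm_ring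
        _ = B * P ^ n * (B' * B) * P * B' := by rw [h2]
        _ = _ := by noncomm_ring
  have e3 : ∀ n : ℕ, P ^ n = B' * (B * P * B') ^ n * B := by
    intro n
    rw [← e2]
    calc P ^ n = 1 * P ^ n * 1 := by noncomm_ring
      _ = (B' * B) * P ^ n * (B' * B) := by rw [h2]
      _ = _ := by noncomm_ring
  have n2 : ∀ n : ℕ, 1 ≤ n → ‖P ^ n‖ ≤ ‖B'‖ * ‖B‖ * (b ^ 2) ^ n := by
    intro n hn
    rw [e3 n]
    refine (norm_mul_le _ _).trans ?_
    have h3 : ‖(B * P * B') ^ n‖ ≤ (b ^ 2) ^ n :=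
      (norm_pow_le' _ hn).trans (pow_le_pow_left₀ (norm_nonneg _) n1 n)
    calc ‖B' * (B * P * B') ^ n‖ * ‖B‖ ≤ (‖B'‖ * (b ^ 2) ^ n) * ‖B‖ := by
          refine mul_le_mul_of_nonneg_right ((norm_mul_le _ _).trans ?_) (norm_nonneg _)
          exact mul_le_mul_of_nonneg_left h3 (norm_nonneg _)
      _ = ‖B'‖ * ‖B‖ * (b ^ 2) ^ n := by ring
  have n3 : ∀ n : ℕ, ‖P‖ ^ (2 ^ n) ≤ ‖B'‖ * ‖B‖ * (b ^ 2) ^ (2 ^ n) := by
    intro n
    have h3 := congrArg NNReal.toReal (IsSelfAdjoint.nnnorm_pow_two_pow hPs n)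
    push_cast at h3
    rw [← h3]
    exact n2 _ Nat.one_le_two_pow
  have n4 : ‖P‖ ≤ b ^ 2 := by
    by_contra hc
    push Not at hc
    have hx0 : 0 < ‖P‖ := (sq_nonneg b).trans_lt hc
    obtain ⟨C, hC⟩ : ∃ C, C = ‖B'‖ * ‖B‖ + 1 := ⟨_, rfl⟩
    have hC0 : 0 < C := by rw [hC]; positivity
    have hr0 : 0 ≤ b ^ 2 / ‖P‖ := by positivity
    have hr1 : b ^ 2 / ‖P‖ < 1 := by rwa [div_lt_one hx0]
    obtain ⟨n, hn⟩ := exists_pow_lt_of_lt_one (show (0 : ℝ) < 1 / C by positivity) hr1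
    have h3 : (b ^ 2 / ‖P‖) ^ (2 ^ n) ≤ (b ^ 2 / ‖P‖) ^ n :=
      pow_le_pow_of_le_one hr0 hr1.le n.lt_two_pow_self.le
    have h4 := n3 n
    have h5 : (b ^ 2 / ‖P‖) ^ (2 ^ n) * ‖P‖ ^ (2 ^ n) = (b ^ 2) ^ (2 ^ n) := by
      rw [← mul_pow, div_mul_cancel₀ _ hx0.ne']
    have h6 : 0 < ‖P‖ ^ (2 ^ n) := by positivity
    have h7 : (b ^ 2 / ‖P‖) ^ (2 ^ n) < 1 / C := h3.trans_lt hn
    have h8 : C * (b ^ 2 / ‖P‖) ^ (2 ^ n) < 1 := by
      rw [lt_div_iff₀ hC0] at h7
      linarith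
    have h9 : ‖P‖ ^ (2 ^ n) ≤ C * (b ^ 2) ^ (2 ^ n) := by
      refine h4.trans (mul_le_mul_of_nonneg_right ?_ (by positivity))
      rw [hC]
      linarith
    rw [← h5, ← mul_assoc] at h9
    nlinarith
  rw [hP, CStarRing.norm_star_mul_self] at n4
  nlinarith [norm_nonneg G]

variable {d : ℕ}

theorem im_abs {m n : C(UnitAddTorus (Fin d), ℂ)} (hn : n * (1 - m) = 1)
    {f p x y : l2 (Fin d → ℤ)} (e1 : p = (f - opr m f) + opr m x)
    (e2 : y = (Complex.I / 2) • (p - x)) (e8 : ‖x‖ = ‖p‖) :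
    (inner ℂ f y : ℂ).im = ‖opr n y‖ ^ 2 - ‖opr (m * n) y‖ ^ 2 := by
  have e3 : p - x = (-2 * Complex.I) • y := by
    rw [e2, smul_smul]
    have : -2 * Complex.I * (Complex.I / 2) = 1 := by
      have := Complex.I_mul_I
      linear_combination (-1 : ℂ) * this
    rw [this, one_smul]
  have e4 : x - opr m x = (f - opr m f) + (2 * Complex.I) • y := by
    have h1 : x = p - (p - x) := by abel
    calc x - opr m x = p - (p - x) - opr m x := by rw [← h1]
      _ = ((f - opr m f) + opr m x) - (p - x) - opr m x := by rw [← e1]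
      _ = (f - opr m f) - (p - x) := by abel
      _ = (f - opr m f) + (2 * Complex.I) • y := by
          rw [e3, neg_mul, neg_smul, sub_neg_eq_add]
  have hnn : ∀ w : l2 (Fin d → ℤ), opr n (w - opr m w) = w := by
    intro w
    have h1 : opr (n * (1 - m)) w = w := by rw [hn, opr_one]; rfl
    rw [opr_mul] at h1
    have h2 : (opr n * opr (1 - m) : l2 (Fin d → ℤ) →L[ℂ] l2 (Fin d → ℤ)) w
        = opr n (opr (1 - m) w) := rfl
    rw [← opr_one_sub, ← h2]
    exact h1
  have e5 : x = f + (2 * Complex.I) • opr n y := by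
    have h1 := hnn x
    rw [e4, map_add, hnn f, map_smul] at h1
    exact h1.symm
  have e6 : opr (m * n) y = opr n y - y := by
    have h1 : m * n = n - 1 := by
      have : n - n * m = 1 := by rw [← hn]; ring
      rw [← this]
      ring
    rw [h1, opr_sub, opr_one]
    rfl
  have e7 : p = f + (2 * Complex.I) • opr (m * n) y := by
    have h1 : p = x + (p - x) := by abel
    rw [h1, e3, e5, e6, smul_sub, neg_mul, neg_smul]
    abel
  have key : ∀ w : l2 (Fin d → ℤ), ‖f + (2 * Complex.I) • w‖ ^ 2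
      = ‖f‖ ^ 2 + 4 * ‖w‖ ^ 2 - 4 * (inner ℂ f w : ℂ).im := by
    intro w
    rw [← nsq_re, inner_add_left, inner_add_right, inner_add_right, Complex.add_re, Complex.add_re,
      Complex.add_re, nsq_re]
    rw [inner_smul_right, inner_smul_left, inner_smul_left, inner_smul_right]
    have h1 : (inner ℂ w f : ℂ) = (starRingEnd ℂ) (inner ℂ f w) := (inner_conj_symm w f).symm
    rw [h1, inn_self w]
    obtain ⟨q, hq⟩ : ∃ q : ℂ, q = inner ℂ f w := ⟨_, rfl⟩
    obtain ⟨t, ht⟩ : ∃ t : ℝ, t = ‖w‖ ^ 2 := ⟨_, rfl⟩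
    rw [← hq, ← ht]
    simp
    ring
  have e9 : ‖f + (2 * Complex.I) • opr n y‖ ^ 2 = ‖f + (2 * Complex.I) • opr (m * n) y‖ ^ 2 := by
    rw [← e5, ← e7, e8]
  rw [key, key] at e9
  have e10 : (inner ℂ f (opr n y) : ℂ).im - (inner ℂ f (opr (m * n) y) : ℂ).im
      = (inner ℂ f y : ℂ).im := by
    rw [e6, inner_sub_right, Complex.sub_im]
    ring
  linarith

theorem bd_abs (hS : S_SYMB) {m n b : C(UnitAddTorus (Fin d), ℂ)} {c : ℝ}
    (hb : ∀ k, ‖b k‖ ^ 2 ≤ c * (‖n k‖ ^ 2 * (1 - ‖m k‖ ^ 2))) (y : l2 (Fin d → ℤ)) :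
    ‖opr b y‖ ^ 2 ≤ c * (‖opr n y‖ ^ 2 - ‖opr (m * n) y‖ ^ 2) := by
  rw [nsq_opr hS, nsq_opr hS, nsq_opr hS]
  have h1 := ((hS d).2.2.1 ((c : ℂ) • (star n * n - star (m * n) * (m * n)) - star b * b)).2
    (fun k => by
      have e1 : (((c : ℂ) • (star n * n - star (m * n) * (m * n)) - star b * b
          : C(UnitAddTorus (Fin d), ℂ)) k)
          = (c : ℂ) * ((starRingEnd ℂ) (n k) * n k - (starRingEnd ℂ) (m k * n k) * (m k * n k))
            - (starRingEnd ℂ) (b k) * b k := rfl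
      have e2 : ∀ w : ℂ, (starRingEnd ℂ) w * w = ((‖w‖ ^ 2 : ℝ) : ℂ) := by
        intro w
        rw [← Complex.normSq_eq_conj_mul_self, Complex.normSq_eq_norm_sq]
      rw [e1, e2, e2, e2, ← Complex.ofReal_sub, ← Complex.ofReal_mul, ← Complex.ofReal_sub,
        Complex.ofReal_re, norm_mul]
      have := hb k
      nlinarith) y
  rw [opr_sub, opr_smul, opr_sub] at h1
  have e3 : ((c : ℂ) • (opr (star n * n) - opr (star (m * n) * (m * n))) - opr (star b * b)) y
      = (c : ℂ) • (opr (star n * n) y - opr (star (m * n) * (m * n)) y) - opr (star b * b) y := rfl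
  rw [e3, inner_sub_right, inner_smul_right, inner_sub_right, Complex.sub_re, Complex.re_ofReal_mul,
    Complex.sub_re] at h1
  linarith

/-- The resolvent as an operator. -/
def Gq (m : C(UnitAddTorus (Fin d), ℂ)) (v : (Fin d → ℤ) → ℝ) :
    l2 (Fin d → ℤ) →L[ℂ] l2 (Fin d → ℤ) :=
  (Complex.I / 2) • ((1 - dc v) * rsv m v * (1 - opr m))

theorem Gq_apply (m : C(UnitAddTorus (Fin d), ℂ)) (v : (Fin d → ℤ) → ℝ) (f : l2 (Fin d → ℤ)) :
    Gq m v f = Gop m v f := rfl

theorem star_opr (hS : S_SYMB) (m : C(UnitAddTorus (Fin d), ℂ)) :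
    star (opr m : l2 (Fin d → ℤ) →L[ℂ] l2 (Fin d → ℤ)) = opr (star m) := by
  refine ((ContinuousLinearMap.eq_adjoint_iff _ _).2 fun x y => ?_).symm
  rw [inn1 hS, star_star]

theorem dc_star (v : (Fin d → ℤ) → ℝ) : star (dc v) * dc v = 1 ∧ dc v * star (dc v) = 1 := by
  have h1 : star (dc v) * dc v = 1 := by
    ext1 f
    refine ext_inner_left ℂ fun g => ?_
    have e : (star (dc v) * dc v) f = (ContinuousLinearMap.adjoint (dc v)) (dc v f) := rfl
    rw [e, ContinuousLinearMap.adjoint_inner_right, dc_inner]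
    rfl
  obtain ⟨D, hD⟩ : ∃ D : l2 (Fin d → ℤ) →L[ℂ] l2 (Fin d → ℤ),
      D = dia fun x => (starRingEnd ℂ) (cay (v x)) := ⟨_, rfl⟩
  have h2 : dc v * D = 1 := by
    ext1 f
    ext x
    have e : (dc v * D) f x = dc v (D f) x := rfl
    rw [e, dc_apply, hD, (DiaP.main (Fin d → ℤ) (fun x => (starRingEnd ℂ) (cay (v x)))
      (fun x => by rw [RCLike.norm_conj, cay_norm])).1 f x, ← mul_assoc, Complex.mul_conj,
      Complex.normSq_eq_norm_sq, cay_norm]
    simp
  have h3 : star (dc v) = D := by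
    calc star (dc v) = star (dc v) * (dc v * D) := by rw [h2, mul_one]
      _ = (star (dc v) * dc v) * D := by noncomm_ring
      _ = D := by rw [h1, one_mul]
  exact ⟨h1, by rw [h3, h2]⟩

/-- The same identity for the adjoint. -/
theorem im_adj (hS : S_SYMB) (hC : S_CSYM) {m n : C(UnitAddTorus (Fin d), ℂ)} (hm : ‖m‖ < 1)
    (hn : n * (1 - m) = 1) (v : (Fin d → ℤ) → ℝ) (f : l2 (Fin d → ℤ)) :
    (inner ℂ f (Gop m v f) : ℂ).im
      = ‖opr (star n) (star (Gq m v) f)‖ ^ 2 - ‖opr (star m * star n) (star (Gq m v) f)‖ ^ 2 := by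
  obtain ⟨-, r1, r2⟩ := (hC (Measure.dirac 0) d m hm).1 v
  obtain ⟨c1, c2⟩ := dc_star v
  obtain ⟨M, hM⟩ : ∃ M : l2 (Fin d → ℤ) →L[ℂ] l2 (Fin d → ℤ), M = opr m := ⟨_, rfl⟩
  obtain ⟨C, hCd⟩ : ∃ C : l2 (Fin d → ℤ) →L[ℂ] l2 (Fin d → ℤ), C = dc v := ⟨_, rfl⟩
  obtain ⟨R, hR⟩ : ∃ R : l2 (Fin d → ℤ) →L[ℂ] l2 (Fin d → ℤ), R = rsv m v := ⟨_, rfl⟩
  obtain ⟨R', hR'⟩ : ∃ R' : l2 (Fin d → ℤ) →L[ℂ] l2 (Fin d → ℤ), R' = 1 + C * R * M := ⟨_, rfl⟩
  rw [← hM, ← hCd, ← hR] at r1 r2
  rw [← hCd] at c1 c2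
  have r3 : M * C * R = R - 1 := by
    have : (1 - M * C) * R = R - M * C * R := by noncomm_ring
    rw [this] at r1
    rw [← r1]
    abel
  have r4 : R * M * C = R - 1 := by
    have : R * (1 - M * C) = R - R * M * C := by noncomm_ring
    rw [this] at r2
    rw [← r2]
    abel
  have s1 : R' * (1 - C * M) = 1 := by
    have : R' * (1 - C * M) = 1 - C * M + C * R * M - C * (R * M * C) * M := by
      rw [hR']; noncomm_ring
    rw [this, r4]
    noncomm_ring
  have s2 : (1 - C) * R * (1 - M) = (1 - M) * R' * (1 - C) := by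
    have t1 : R' * C = C * R := by
      have : R' * C = C + C * (R * M * C) := by rw [hR']; noncomm_ring
      rw [this, r4]
      noncomm_ring
    have t2 : M * R' = R * M := by
      have : M * R' = M + (M * C * R) * M := by rw [hR']; noncomm_ring
      rw [this, r3]
      noncomm_ring
    have t3 : (1 - M) * R' * (1 - C) = R' - R' * C - M * R' + M * (R' * C) := by noncomm_ring
    rw [t3, t1, t2, hR']
    have t4 : M * (C * R) = R - 1 := by rw [← r3]; noncomm_ring
    rw [t4]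
    noncomm_ring
  have s3 : star (Gq m v) = (-(Complex.I / 2)) • ((1 - star C) * star R' * (1 - star M)) := by
    have h1 : Gq m v = (Complex.I / 2) • ((1 - M) * R' * (1 - C)) := by
      rw [← s2, hM, hCd, hR]
      rfl
    rw [h1, star_smul, star_mul, star_mul, star_sub, star_sub, star_one]
    have h2 : star (Complex.I / 2) = -(Complex.I / 2) := by
      rw [Complex.star_def, map_div₀, Complex.conj_I]
      have : (starRingEnd ℂ) 2 = 2 := Complex.conj_ofNat 2
      rw [this]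
      ring
    rw [h2]
    congr 1
    first | done | noncomm_ring
  have s4 : (1 - star M * star C) * star R' = 1 := by
    have := congrArg star s1
    rw [star_mul, star_sub, star_mul, star_one] at this
    exact this
  have hMs : star M = opr (star m) := by rw [hM]; exact star_opr hS m
  obtain ⟨p, hp⟩ : ∃ p, p = star R' (f - opr (star m) f) := ⟨_, rfl⟩
  obtain ⟨x, hx⟩ : ∃ x, x = star C p := ⟨_, rfl⟩
  obtain ⟨y, hy⟩ : ∃ y, y = (Complex.I / 2) • (p - x) := ⟨_, rfl⟩
  have e1 : p = (f - opr (star m) f) + opr (star m) x := by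
    have h1 := congrArg (fun T : l2 (Fin d → ℤ) →L[ℂ] l2 (Fin d → ℤ) => T (f - opr (star m) f)) s4
    have h2 : ((1 - star M * star C) * star R') (f - opr (star m) f)
        = star R' (f - opr (star m) f) - star M (star C (star R' (f - opr (star m) f))) := rfl
    have h3 : (1 : l2 (Fin d → ℤ) →L[ℂ] l2 (Fin d → ℤ)) (f - opr (star m) f)
        = f - opr (star m) f := rfl
    have h4 : star R' (f - opr (star m) f) - star M (star C (star R' (f - opr (star m) f)))
        = f - opr (star m) f := h2.symm.trans (h1.trans h3)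
    rw [← hp, ← hx, hMs] at h4
    rw [← h4]
    abel
  have e8 : ‖x‖ = ‖p‖ := by
    have h1 : C (star C p) = p := by
      have := congrArg (fun T : l2 (Fin d → ℤ) →L[ℂ] l2 (Fin d → ℤ) => T p) c2
      exact this
    rw [← hx] at h1
    calc ‖x‖ = ‖C x‖ := by rw [hCd]; exact (dc_norm v x).symm
      _ = ‖p‖ := by rw [h1]
  have hn' : star n * (1 - star m) = 1 := by
    have := congrArg star hn
    rw [star_mul, star_sub, star_one] at this
    rw [mul_comm]
    exact this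
  have key := im_abs hn' e1 hy e8
  have e9 : star (Gq m v) f = -y := by
    rw [s3, hy, hx, hp, ← hMs]
    have : ((-(Complex.I / 2)) • ((1 - star C) * star R' * (1 - star M))) f
        = (-(Complex.I / 2)) • (star R' (f - star M f) - star C (star R' (f - star M f))) := rfl
    rw [this, neg_smul]
  have e10 : (inner ℂ f (Gop m v f) : ℂ).im = (inner ℂ f y : ℂ).im := by
    have h1 : (inner ℂ f (Gop m v f) : ℂ) = inner ℂ (star (Gq m v) f) f := by
      rw [← Gq_apply]
      exact (ContinuousLinearMap.adjoint_inner_left (Gq m v) f f).symm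
    rw [h1, e9, inner_neg_left, ← inner_conj_symm y f, Complex.neg_im, Complex.conj_im, neg_neg]
  rw [e10, key, e9, map_neg, map_neg, norm_neg, norm_neg]

end

end Pool.Agent.U281.GEN
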