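import Pool.Agent.U281.GEN.Op2

/-!
The matrix elements of the resolvent of the effective medium are bounded in mean square.
-/

set_option autoImplicit false

namespace Pool.Agent.U281.GEN

open MeasureTheory Pool.Agent.W792.LL Pool.Agent.W792.WA Pool.Agent.W19.WAPsi
open scoped Topology

noncomputable section

variable {d : ℕ}

theorem im_le_opr (hS : S_SYMB) {a β : C(UnitAddTorus (Fin d), ℂ)}
    (ha : ∀ k, (a k).im ≤ ‖β k‖ ^ 2) (g : l2 (Fin d → ℤ)) :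
    (inner ℂ g (opr a g) : ℂ).im ≤ ‖opr β g‖ ^ 2 := by
  have h1 := ((hS d).2.2.1 (star β * β + Complex.I • a)).2
    (fun k => by
      have e1 : ((star β * β + Complex.I • a : C(UnitAddTorus (Fin d), ℂ)) k)
          = (starRingEnd ℂ) (β k) * β k + Complex.I * a k := rfl
      have e2 : (starRingEnd ℂ) (β k) * β k = ((‖β k‖ ^ 2 : ℝ) : ℂ) := by
        rw [← Complex.normSq_eq_conj_mul_self, Complex.normSq_eq_norm_sq]
      rw [e1, e2, Complex.add_re, Complex.ofReal_re]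
      simp
      exact ha k) g
  rw [opr_add, opr_smul] at h1
  have e3 : (opr (star β * β) + Complex.I • opr a) g
      = opr (star β * β) g + Complex.I • opr a g := rfl
  rw [e3, inner_add_right, inner_smul_right, Complex.add_re, ← nsq_opr hS] at h1
  have e4 : (Complex.I * inner ℂ g (opr a g) : ℂ).re = -(inner ℂ g (opr a g) : ℂ).im := by
    simp
  rw [e4] at h1
  linarith

theorem Gq_norm (hC : S_CSYM) {m : C(UnitAddTorus (Fin d), ℂ)} (hm : ‖m‖ < 1)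
    (v : (Fin d → ℤ) → ℝ) : ‖Gq m v‖ ≤ 2 / (1 - ‖m‖) := by
  have hq : 0 < 1 - ‖m‖ := by linarith
  obtain ⟨h1, -, -⟩ := (hC (Measure.dirac 0) d m hm).1 v
  have h2 : ‖(1 - dc v : l2 (Fin d → ℤ) →L[ℂ] l2 (Fin d → ℤ))‖ ≤ 2 := by
    refine ContinuousLinearMap.opNorm_le_bound _ (by norm_num) fun f => ?_
    have : (1 - dc v : l2 (Fin d → ℤ) →L[ℂ] l2 (Fin d → ℤ)) f = f - dc v f := rfl
    rw [this]
    refine (norm_sub_le _ _).trans ?_
    rw [dc_norm]
    linarith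
  have h3 : ‖(1 - opr m : l2 (Fin d → ℤ) →L[ℂ] l2 (Fin d → ℤ))‖ ≤ 2 := by
    refine ContinuousLinearMap.opNorm_le_bound _ (by norm_num) fun f => ?_
    have : (1 - opr m : l2 (Fin d → ℤ) →L[ℂ] l2 (Fin d → ℤ)) f = f - opr m f := rfl
    rw [this]
    refine (norm_sub_le _ _).trans ?_
    have := opr_le m f
    nlinarith [norm_nonneg f]
  unfold Gq
  rw [norm_smul]
  have h4 : ‖Complex.I / 2‖ = 1 / 2 := by
    rw [norm_div, Complex.norm_I]
    norm_num
  rw [h4]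
  have h5 : ‖(1 - dc v) * rsv m v * (1 - opr m)‖ ≤ 2 * (1 / (1 - ‖m‖)) * 2 :=
    (norm_mul_le _ _).trans (mul_le_mul ((norm_mul_le _ _).trans
      (mul_le_mul h2 h1 (norm_nonneg _) (by norm_num))) h3 (norm_nonneg _) (by positivity))
  calc 1 / 2 * ‖(1 - dc v) * rsv m v * (1 - opr m)‖ ≤ 1 / 2 * (2 * (1 / (1 - ‖m‖)) * 2) :=
        mul_le_mul_of_nonneg_left h5 (by norm_num)
    _ = 2 / (1 - ‖m‖) := by ring

theorem BM.smul' {Ω : Type} [MeasurableSpace Ω] {φ : Ω → ℂ} {ξ : Ω → l2 (Fin d → ℤ)} (h : BM φ)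
    (g : BM ξ) : BM (fun v => (starRingEnd ℂ) (φ v) • ξ v) := by
  obtain ⟨K, hK⟩ := h.bd
  obtain ⟨L, hL⟩ := g.bd
  refine ⟨(Complex.continuous_conj.comp_stronglyMeasurable h.sm).smul g.sm, K * L, fun v => ?_⟩
  rw [norm_smul, RCLike.norm_conj]
  exact mul_le_mul (hK v) (hL v) (norm_nonneg _) ((norm_nonneg _).trans (hK v))

/-- The resolvent averaged against a random variable. -/
theorem exGam (hC : S_CSYM) (ν : Measure ℝ) [IsProbabilityMeasure ν]
    {m : C(UnitAddTorus (Fin d), ℂ)} (hm : ‖m‖ < 1) {φ : ((Fin d → ℤ) → ℝ) → ℂ} (hφ : BM φ) :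
    ∃ Γ : l2 (Fin d → ℤ) →L[ℂ] l2 (Fin d → ℤ), ∀ g h : l2 (Fin d → ℤ),
      (inner ℂ h (Γ g) : ℂ)
        = ∫ v, (starRingEnd ℂ) (φ v) * inner ℂ h (Gop m v g) ∂(Pn ν (Fin d → ℤ)) := by
  obtain ⟨K, hK⟩ := hφ.bd
  have hi : ∀ g : l2 (Fin d → ℤ), Integrable (fun v => (starRingEnd ℂ) (φ v) • Gop m v g)
      (Pn ν (Fin d → ℤ)) := fun g => (BM.smul' hφ (gop_bm hC hm g)).int
  have hb : ∀ g : l2 (Fin d → ℤ), ‖∫ v, (starRingEnd ℂ) (φ v) • Gop m v g ∂(Pn ν (Fin d → ℤ))‖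
      ≤ K * (2 / (1 - ‖m‖)) * ‖g‖ := by
    intro g
    refine (norm_integral_le_of_norm_le_const (C := K * (2 / (1 - ‖m‖)) * ‖g‖)
      (Filter.Eventually.of_forall fun v => ?_)).trans (by simp)
    rw [norm_smul, RCLike.norm_conj, mul_assoc]
    refine mul_le_mul (hK v) ?_ (norm_nonneg _) ((norm_nonneg _).trans (hK v))
    rw [← Gq_apply]
    exact ((Gq m v).le_opNorm g).trans (mul_le_mul_of_nonneg_right (Gq_norm hC hm v)
      (norm_nonneg _))
  let L : l2 (Fin d → ℤ) →ₗ[ℂ] l2 (Fin d → ℤ) :=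
    { toFun := fun g => ∫ v, (starRingEnd ℂ) (φ v) • Gop m v g ∂(Pn ν (Fin d → ℤ))
      map_add' := fun g g' => by
        rw [← integral_add (hi g) (hi g')]
        refine integral_congr_ae (Filter.Eventually.of_forall fun v => ?_)
        simp only [← Gq_apply, map_add, smul_add]
      map_smul' := fun c g => by
        rw [RingHom.id_apply, ← integral_smul]
        refine integral_congr_ae (Filter.Eventually.of_forall fun v => ?_)
        simp only [← Gq_apply, map_smul]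
        rw [smul_comm] }
  refine ⟨L.mkContinuous _ hb, fun g h => ?_⟩
  have e : (L.mkContinuous _ hb) g = ∫ v, (starRingEnd ℂ) (φ v) • Gop m v g
      ∂(Pn ν (Fin d → ℤ)) := rfl
  rw [e, ← integral_inner (hi g) h]
  refine integral_congr_ae (Filter.Eventually.of_forall fun v => ?_)
  simp only [inner_smul_right]

/-- The matrix elements of the resolvent are bounded in mean square. -/
theorem weak_l2 (hS : S_SYMB) (hC : S_CSYM) (ν : Measure ℝ) [IsProbabilityMeasure ν]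
    {m n β β' : C(UnitAddTorus (Fin d), ℂ)} (hm : ‖m‖ < 1) (hn : n * (1 - m) = 1)
    (hβ : star β = β) (hβ' : star β' = β') (hbb : β * β' = 1) {c : ℝ} (hc : 0 ≤ c)
    (hb : ∀ k, ‖β k‖ ^ 2 ≤ c * (‖n k‖ ^ 2 * (1 - ‖m k‖ ^ 2)))
    (hA : ∀ k, (Gs ν m k).im ≤ ‖β k‖ ^ 2) (f f' : l2 (Fin d → ℤ)) :
    ∫ v, ‖(inner ℂ f (Gop m v f') : ℂ)‖ ^ 2 ∂(Pn ν (Fin d → ℤ)) ≤ c * ‖f‖ ^ 2 * ‖f'‖ ^ 2 := by
  obtain ⟨φ, hφd⟩ : ∃ φ : ((Fin d → ℤ) → ℝ) → ℂ, φ = fun v => inner ℂ f (Gop m v f') :=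
    ⟨_, rfl⟩
  have hφ : BM φ := by
    rw [hφd]
    exact (BM.const f).inner (gop_bm hC hm f')
  obtain ⟨N, hN⟩ : ∃ N : ℝ, N = ∫ v, ‖φ v‖ ^ 2 ∂(Pn ν (Fin d → ℤ)) := ⟨_, rfl⟩
  have hN0 : 0 ≤ N := by
    rw [hN]
    exact integral_nonneg fun v => by positivity
  obtain ⟨Γ, hΓ⟩ := exGam hC ν hm hφ
  have B1 : ∀ g : l2 (Fin d → ℤ), opr β (opr β' g) = g := by
    intro g
    have h1 : opr (β * β') g = g := by rw [hbb, opr_one]; rfl
    rw [opr_mul] at h1
    exact h1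
  have b1 : (opr β * opr β' : l2 (Fin d → ℤ) →L[ℂ] l2 (Fin d → ℤ)) = 1 := by
    rw [← opr_mul, hbb, opr_one]
  have b2 : (opr β' * opr β : l2 (Fin d → ℤ) →L[ℂ] l2 (Fin d → ℤ)) = 1 := by
    rw [← opr_mul, mul_comm, hbb, opr_one]
  have sβ : ∀ u w : l2 (Fin d → ℤ), (inner ℂ (opr β u) w : ℂ) = inner ℂ u (opr β w) := by
    intro u w
    rw [inn1 hS, hβ]
  have sβ' : ∀ u w : l2 (Fin d → ℤ), (inner ℂ (opr β' u) w : ℂ) = inner ℂ u (opr β' w) := by
    intro u w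
    rw [inn1 hS, hβ']
  -- the pointwise bounds
  have p1 : ∀ v g, ‖opr β (Gop m v g)‖ ^ 2 ≤ c * (inner ℂ g (Gop m v g) : ℂ).im := by
    intro v g
    rw [im_gop hC hm hn v g]
    exact bd_abs hS hb _
  have p2 : ∀ v g, ‖opr β (star (Gq m v) g)‖ ^ 2 ≤ c * (inner ℂ g (Gop m v g) : ℂ).im := by
    intro v g
    rw [im_adj hS hC hm hn v g]
    refine bd_abs hS (fun k => ?_) _
    have e1 : ‖(star n) k‖ = ‖n k‖ := norm_star _
    have e2 : ‖(star m) k‖ = ‖m k‖ := norm_star _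
    rw [e1, e2]
    exact hb k
  -- averages
  have a1 : ∀ g : l2 (Fin d → ℤ), ∫ v, c * (inner ℂ (opr β' g) (Gop m v (opr β' g)) : ℂ).im
      ∂(Pn ν (Fin d → ℤ)) ≤ c * ‖g‖ ^ 2 := by
    intro g
    rw [integral_const_mul, im_int ((BM.const (opr β' g)).inner (gop_bm hC hm (opr β' g))).int,
      ex_inner hC ν hm]
    refine mul_le_mul_of_nonneg_left ((im_le_opr hS hA _).trans ?_) hc
    rw [B1]
  have bmI : ∀ g : l2 (Fin d → ℤ),
      BM fun v => c * (inner ℂ (opr β' g) (Gop m v (opr β' g)) : ℂ).im := by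
    intro g
    obtain ⟨k1, K, hK⟩ := (BM.const (opr β' g)).inner (gop_bm hC hm (opr β' g))
    refine ⟨(Complex.continuous_im.comp_stronglyMeasurable k1).const_mul c, |c| * K, fun v => ?_⟩
    rw [norm_mul, Real.norm_eq_abs, Real.norm_eq_abs]
    exact mul_le_mul_of_nonneg_left ((Complex.abs_im_le_norm _).trans (hK v)) (abs_nonneg _)
  -- weak bounds
  have w1 : ∀ g h : l2 (Fin d → ℤ),
      ‖(inner ℂ h (opr β (Γ (opr β' g))) : ℂ)‖ ^ 2 ≤ c * N * (‖g‖ ^ 2 * ‖h‖ ^ 2) := by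
    intro g h
    rw [← sβ, hΓ]
    have hx : BM fun v => (starRingEnd ℂ) (φ v) * inner ℂ (opr β h) (Gop m v (opr β' g)) := by
      obtain ⟨k1, K, hK⟩ := (BM.const (opr β h)).inner (gop_bm hC hm (opr β' g))
      obtain ⟨L, hL⟩ := hφ.bd
      refine ⟨(Complex.continuous_conj.comp_stronglyMeasurable hφ.sm).mul k1, L * K, fun v => ?_⟩
      rw [norm_mul, RCLike.norm_conj]
      exact mul_le_mul (hL v) (hK v) (norm_nonneg _) ((norm_nonneg _).trans (hL v))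
    have h1 := cs (P := Pn ν (Fin d → ℤ)) hx hφ.nsq (bmI g) (fun v => by positivity)
      (fun v => (sq_nonneg _).trans (p1 v _)) (‖h‖ ^ 2) (by positivity) (fun v => by
        rw [norm_mul, RCLike.norm_conj, mul_pow, sβ]
        have e1 := norm_inner_le_norm (𝕜 := ℂ) h (opr β (Gop m v (opr β' g)))
        have e2 := pow_le_pow_left₀ (norm_nonneg _) e1 2
        rw [mul_pow] at e2
        have e3 := p1 v (opr β' g)
        calc ‖φ v‖ ^ 2 * ‖(inner ℂ h (opr β (Gop m v (opr β' g))) : ℂ)‖ ^ 2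
            ≤ ‖φ v‖ ^ 2 * (‖h‖ ^ 2 * (c * (inner ℂ (opr β' g) (Gop m v (opr β' g)) : ℂ).im)) := by
              refine mul_le_mul_of_nonneg_left (e2.trans ?_) (by positivity)
              exact mul_le_mul_of_nonneg_left e3 (by positivity)
          _ = _ := by ring)
    refine h1.trans ?_
    rw [← hN]
    calc ‖h‖ ^ 2 * N * ∫ v, c * (inner ℂ (opr β' g) (Gop m v (opr β' g)) : ℂ).im
          ∂(Pn ν (Fin d → ℤ)) ≤ ‖h‖ ^ 2 * N * (c * ‖g‖ ^ 2) :=
          mul_le_mul_of_nonneg_left (a1 g) (by positivity)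
      _ = _ := by ring
  have w2 : ∀ g h : l2 (Fin d → ℤ),
      ‖(inner ℂ h (opr β' (Γ (opr β g))) : ℂ)‖ ^ 2 ≤ c * N * (‖g‖ ^ 2 * ‖h‖ ^ 2) := by
    intro g h
    rw [← sβ', hΓ]
    have hx : BM fun v => (starRingEnd ℂ) (φ v) * inner ℂ (opr β' h) (Gop m v (opr β g)) := by
      obtain ⟨k1, K, hK⟩ := (BM.const (opr β' h)).inner (gop_bm hC hm (opr β g))
      obtain ⟨L, hL⟩ := hφ.bd
      refine ⟨(Complex.continuous_conj.comp_stronglyMeasurable hφ.sm).mul k1, L * K, fun v => ?_⟩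
      rw [norm_mul, RCLike.norm_conj]
      exact mul_le_mul (hL v) (hK v) (norm_nonneg _) ((norm_nonneg _).trans (hL v))
    have h1 := cs (P := Pn ν (Fin d → ℤ)) hx hφ.nsq (bmI h) (fun v => by positivity)
      (fun v => (sq_nonneg _).trans (p1 v _)) (‖g‖ ^ 2) (by positivity) (fun v => by
        rw [norm_mul, RCLike.norm_conj, mul_pow]
        have e0 : (inner ℂ (opr β' h) (Gop m v (opr β g)) : ℂ)
            = inner ℂ (opr β (star (Gq m v) (opr β' h))) g := by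
          rw [sβ, ← Gq_apply]
          exact (ContinuousLinearMap.adjoint_inner_left (Gq m v) _ _).symm
        rw [e0]
        have e1 := norm_inner_le_norm (𝕜 := ℂ) (opr β (star (Gq m v) (opr β' h))) g
        have e2 := pow_le_pow_left₀ (norm_nonneg _) e1 2
        rw [mul_pow] at e2
        have e3 := p2 v (opr β' h)
        calc ‖φ v‖ ^ 2 * ‖(inner ℂ (opr β (star (Gq m v) (opr β' h))) g : ℂ)‖ ^ 2
            ≤ ‖φ v‖ ^ 2 * ((c * (inner ℂ (opr β' h) (Gop m v (opr β' h)) : ℂ).im) * ‖g‖ ^ 2) := by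
              refine mul_le_mul_of_nonneg_left (e2.trans ?_) (by positivity)
              exact mul_le_mul_of_nonneg_right e3 (by positivity)
          _ = _ := by ring)
    refine h1.trans ?_
    rw [← hN]
    calc ‖g‖ ^ 2 * N * ∫ v, c * (inner ℂ (opr β' h) (Gop m v (opr β' h)) : ℂ).im
          ∂(Pn ν (Fin d → ℤ)) ≤ ‖g‖ ^ 2 * N * (c * ‖h‖ ^ 2) :=
          mul_le_mul_of_nonneg_left (a1 h) (by positivity)
      _ = _ := by ring
  -- from weak bounds to norms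
  have st : ∀ T : l2 (Fin d → ℤ) →L[ℂ] l2 (Fin d → ℤ),
      (∀ g h : l2 (Fin d → ℤ), ‖(inner ℂ h (T g) : ℂ)‖ ^ 2 ≤ c * N * (‖g‖ ^ 2 * ‖h‖ ^ 2)) →
      ‖T‖ ≤ Real.sqrt (c * N) := by
    intro T hT
    refine T.opNorm_le_bound (Real.sqrt_nonneg _) fun g => ?_
    have h1 := hT g (T g)
    rw [inn_self, Complex.norm_real, Real.norm_of_nonneg (by positivity)] at h1
    have h2 : ‖T g‖ ^ 2 ≤ c * N * ‖g‖ ^ 2 := by
      by_contra hcon
      push Not at hcon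
      have h3 : 0 < ‖T g‖ ^ 2 := by
        refine lt_of_le_of_lt ?_ hcon
        positivity
      nlinarith
    have h3 : ‖T g‖ ^ 2 ≤ (Real.sqrt (c * N) * ‖g‖) ^ 2 := by
      rw [mul_pow, Real.sq_sqrt (by positivity)]
      exact h2
    exact (pow_le_pow_iff_left₀ (norm_nonneg _) (by positivity) two_ne_zero).1 h3
  have key := heinz (B := opr β) (B' := opr β') (G := Γ) b1 b2 (by rw [star_opr hS, hβ])
    (by rw [star_opr hS, hβ']) (Real.sqrt_nonneg (c * N)) (st _ w1) (st _ w2)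
  -- conclusion
  have h1 : (inner ℂ f (Γ f') : ℂ) = (N : ℂ) := by
    rw [hΓ, hN, ← integral_complex_ofReal]
    refine integral_congr_ae (Filter.Eventually.of_forall fun v => ?_)
    have : (inner ℂ f (Gop m v f') : ℂ) = φ v := by rw [hφd]
    simp only [this]
    rw [← Complex.normSq_eq_conj_mul_self, Complex.normSq_eq_norm_sq]
  have h2 : N ≤ Real.sqrt (c * N) * (‖f‖ * ‖f'‖) := by
    have e1 := norm_inner_le_norm (𝕜 := ℂ) f (Γ f')
    rw [h1, Complex.norm_real, Real.norm_of_nonneg hN0] at e1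
    have e2 : ‖Γ f'‖ ≤ Real.sqrt (c * N) * ‖f'‖ :=
      (Γ.le_opNorm f').trans (mul_le_mul_of_nonneg_right key (norm_nonneg _))
    calc N ≤ ‖f‖ * ‖Γ f'‖ := e1
      _ ≤ ‖f‖ * (Real.sqrt (c * N) * ‖f'‖) := mul_le_mul_of_nonneg_left e2 (norm_nonneg _)
      _ = _ := by ring
  have h3 : N ^ 2 ≤ c * N * (‖f‖ * ‖f'‖) ^ 2 := by
    have := pow_le_pow_left₀ hN0 h2 2
    rwa [mul_pow, Real.sq_sqrt (by positivity)] at this
  have h4 : N ≤ c * ‖f‖ ^ 2 * ‖f'‖ ^ 2 := by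
    by_contra hcon
    push Not at hcon
    have h5 : 0 < N := lt_of_le_of_lt (by positivity) hcon
    nlinarith
  rw [hN, hφd] at h4
  exact h4

end

end Pool.Agent.U281.GEN
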