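import Pool.Agent.U281.GEN.Op3
import Pool.Agent.W685.WA.Step
import Pool.Agent.W792.WA.G1

/-!
The effective medium with one semicircle level.
-/

set_option autoImplicit false

namespace Pool.Agent.U281.GEN

open MeasureTheory Filter Pool.Agent.W792.LL Pool.Agent.W792.WA Pool.Agent.W19.WAPsi
open Pool.Agent.W685.WA.Step
open scoped Topology

noncomputable section

variable {d : ℕ}

/-- The self-energy in the lower half plane. -/
def Se (s : ℂ) : ℂ := Complex.I * (s + 1) / (s - 1)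

theorem re_cay (w : ℂ) (hw : 1 - w ≠ 0) : ((1 + w) / (1 - w)).re = (1 - ‖w‖ ^ 2) / ‖1 - w‖ ^ 2 := by
  have h0 : 0 < ‖1 - w‖ ^ 2 := by
    have := norm_pos_iff.2 hw
    positivity
  rw [Complex.div_re, ← add_div, Complex.normSq_eq_norm_sq]
  congr 1
  rw [Complex.sq_norm, Complex.normSq_apply]
  simp
  ring

theorem Se_im {s : ℂ} (hs : ‖s‖ < 1) : (Se s).im ≤ 0 := by
  have h1 : 1 - s ≠ 0 := by
    intro h
    have : s = 1 := (sub_eq_zero.1 h).symm
    rw [this, norm_one] at hs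
    exact lt_irrefl _ hs
  have h2 : s - 1 ≠ 0 := by
    intro h
    exact h1 (by rw [← neg_eq_zero, neg_sub]; exact h)
  have e : Se s = -(Complex.I * ((1 + s) / (1 - s))) := by
    unfold Se
    field_simp
    ring
  rw [e, Complex.neg_im, Complex.I_mul_im, re_cay s h1]
  have : 0 ≤ (1 - ‖s‖ ^ 2) / ‖1 - s‖ ^ 2 := by
    apply div_nonneg
    · nlinarith [norm_nonneg s]
    · positivity
  linarith

theorem alg1 {x s w : ℂ} (hw1 : 1 - w * s ≠ 0) (hs : s - 1 ≠ 0)
    (hd : x + Se s ≠ 0) (hx : x - Complex.I ≠ 0) (hw : w = (x + Complex.I) / (x - Complex.I)) :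
    Complex.I / 2 * (1 - s) * (1 - (1 - s) * (w / (1 - w * s))) = 1 / (x + Se s) := by
  have e1 : w * (x - Complex.I) = x + Complex.I := by rw [hw, div_mul_cancel₀ _ hx]
  have e2 : (x + Se s) * (s - 1) = x * (s - 1) + Complex.I * (s + 1) := by
    unfold Se
    rw [add_mul, div_mul_cancel₀ _ hs]
  have e3 : x * (s - 1) + Complex.I * (s + 1) ≠ 0 := by
    rw [← e2]
    exact mul_ne_zero hd hs
  have e4 : (1 - w * s) * (x - Complex.I) = -(x * (s - 1) + Complex.I * (s + 1)) := by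
    linear_combination (-s) * e1
  have e5 : 1 - (1 - s) * (w / (1 - w * s)) = (1 - w) / (1 - w * s) := by
    rw [eq_div_iff hw1]
    have : w / (1 - w * s) * (1 - w * s) = w := div_mul_cancel₀ _ hw1
    linear_combination (-(1 - s)) * this
  rw [e5, eq_div_iff hd]
  have e6 : (1 - w) * (x - Complex.I) = -2 * Complex.I := by linear_combination (-1 : ℂ) * e1
  have e7 : (1 - w) / (1 - w * s) = 2 * Complex.I / (x * (s - 1) + Complex.I * (s + 1)) := by
    rw [div_eq_div_iff hw1 e3]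
    have h1 : ((1 - w) * (x * (s - 1) + Complex.I * (s + 1)) - 2 * Complex.I * (1 - w * s))
        * (x - Complex.I) = 0 := by
      linear_combination (x * (s - 1) + Complex.I * (s + 1)) * e6 - 2 * Complex.I * e4
    rcases mul_eq_zero.1 h1 with h | h
    · exact sub_eq_zero.1 h
    · exact absurd h hx
  rw [e7]
  have e8 : (x + Se s) = (x * (s - 1) + Complex.I * (s + 1)) / (s - 1) := by
    rw [eq_div_iff hs, e2]
  rw [e8]
  field_simp
  have := Complex.I_sq
  linear_combination (1 - s) * this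

theorem alg2 {x s u G : ℂ} {r : ℝ} (hu : 1 - u ≠ 0) (hs : s - 1 ≠ 0) (hus : 1 - u * s ≠ 0)
    (hG : G = Complex.I / 2 * (1 - s) * ((1 - u) / (1 - u * s)))
    (heq : (r : ℂ) ^ 2 / 4 * G ^ 2 - (x + Se s) * G + 1 = 0) :
    Complex.I * ((1 + u) / (1 - u)) = (r : ℂ) ^ 2 / 4 * G - x := by
  have hI : Complex.I ^ 2 = -1 := Complex.I_sq
  have hG0 : G ≠ 0 := by
    intro h
    rw [h] at heq
    simp at heq
  have hs' : 1 - s ≠ 0 := by
    intro h
    exact hs (by rw [← neg_eq_zero, neg_sub]; exact h)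
  have e1 : G * (1 - u * s) = Complex.I / 2 * (1 - s) * (1 - u) := by
    rw [hG, mul_assoc, div_mul_cancel₀ _ hus]
  have e2 : Se s * (s - 1) = Complex.I * (s + 1) := by
    unfold Se
    rw [div_mul_cancel₀ _ hs]
  have h1 : (Complex.I * (1 + u) - ((r : ℂ) ^ 2 / 4 * G - x) * (1 - u)) * (G * (1 - s)) = 0 := by
    linear_combination (-(1 - u) * (1 - s)) * heq + (2 * Complex.I) * e1
      + ((1 - u) * G) * e2 + ((1 - s) * (1 - u)) * hI
  have h2 : Complex.I * (1 + u) = ((r : ℂ) ^ 2 / 4 * G - x) * (1 - u) := by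
    rcases mul_eq_zero.1 h1 with h | h
    · exact sub_eq_zero.1 h
    · exact absurd h (mul_ne_zero hG0 hs')
  rw [← mul_div_assoc, div_eq_iff hu]
  exact h2

theorem lev_integral (ψ : C(UnitAddCircle, ℝ)) (r : ℝ) {f : ℝ → ℂ} (hf : Measurable f) :
    ∫ a, f a ∂(lev ψ r) = ∫ φ in Set.Ioc (0 : ℝ) 1, f (r * ψ (φ : UnitAddCircle)) := by
  unfold lev
  rw [integral_map (meas_lev ψ r).aemeasurable hf.aestronglyMeasurable]

/-- Pointwise properties of the effective medium. -/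
theorem semi_pt (hSC1 : S_SC1) (hX : S_CX) (hUU : S_UUC) (hPSI : S_PSI) (hFIX : S_FIX)
    (ν : Measure ℝ) [IsProbabilityMeasure ν] (hv : 0 < vr ν) {ψ : C(UnitAddCircle, ℝ)}
    (hψ : IsSemi ψ) {r : ℝ} (hr : 0 < r) (K : C(UnitAddTorus (Fin d), ℝ)) {z : ℂ} (hz : 0 < z.im)
    {s : C(UnitAddTorus (Fin d), ℂ)} (hs : IsFix ν (lev ψ r) (wz K z) s) :
    ‖UU (lev ψ r) (wz K z) s‖ < 1 ∧ ∀ k, 1 - UU (lev ψ r) (wz K z) s k ≠ 0 ∧
      0 < (Gs ν (UU (lev ψ r) (wz K z) s) k).im ∧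
      z.im + r ^ 2 / 4 * (Gs ν (UU (lev ψ r) (wz K z) s) k).im
        = (1 - ‖UU (lev ψ r) (wz K z) s k‖ ^ 2) / ‖1 - UU (lev ψ r) (wz K z) s k‖ ^ 2 := by
  have := prob_lev ψ r
  have hsupp : (lev ψ r) (Set.Icc (-r) r)ᶜ = 0 := by
    have := lev_supp hψ hr
    rw [ae_iff] at this
    refine measure_mono_null (fun a ha => ?_) this
    intro h
    exact ha (abs_le.1 h)
  obtain ⟨q, hq0, hq1, hq⟩ := hX.2.2.1 r (‖K‖ + ‖z‖) z.im hz
  have hxn : ∀ k, ‖(K k : ℂ) - z‖ ≤ ‖K‖ + ‖z‖ := fun k =>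
    (norm_sub_le _ _).trans (by
      rw [Complex.norm_real]
      linarith [K.norm_coe_le_norm k])
  have hxi : ∀ k, ((K k : ℂ) - z).im = -z.im := fun k => by simp
  have hw : ∀ k, ∀ a ∈ Set.Icc (-r) r, ‖wz K z k a‖ ≤ q := fun k a ha =>
    hq _ a (hxn k) (hxi k).le (abs_le.2 ha)
  have hc := hX.2.2.2 d K z hz.le
  have hsn : ‖s‖ ≤ 1 := hs.1
  have hqs : q * ‖s‖ < 1 := by nlinarith [norm_nonneg s]
  obtain ⟨u1, u2⟩ := hUU d (lev ψ r) r q (wz K z) s hsupp hc hq0 hq1.le hw hsn hqs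
  obtain ⟨U, hU⟩ : ∃ U, U = UU (lev ψ r) (wz K z) s := ⟨_, rfl⟩
  rw [← hU] at u1 u2
  rw [← hU]
  have hUn : ‖U‖ < 1 := u2.trans_lt hq1
  refine ⟨hUn, fun k => ?_⟩
  have hsk : ‖s k‖ < 1 := by
    have h1 := (hFIX ν d (lev ψ r) r q (wz K z) hv hsupp hc hq0 hq1 hw).2.1 s hs k
    have h2 : 0 < (1 - q ^ 2) * vr ν / 4 := by
      have : 0 < 1 - q ^ 2 := by nlinarith
      positivity
    have h3 : ‖s k‖ ^ 2 < 1 := by linarith
    nlinarith [norm_nonneg (s k)]
  have hUk : ‖U k‖ < 1 := (U.norm_coe_le_norm k).trans_lt hUn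
  have hu1 : 1 - U k ≠ 0 := by
    intro h
    have : U k = 1 := (sub_eq_zero.1 h).symm
    rw [this, norm_one] at hUk
    exact lt_irrefl _ hUk
  have hs1 : s k - 1 ≠ 0 := by
    intro h
    have : s k = 1 := sub_eq_zero.1 h
    rw [this, norm_one] at hsk
    exact lt_irrefl _ hsk
  -- the averaged resolvent
  obtain ⟨-, p2, -, p4, p5, -⟩ := (hPSI ν d q U U hq0 hq1 u2 u2).1 k
  have hps : psi ν U = s := by rw [hU]; exact hs.2
  rw [hps] at p4 p5
  obtain ⟨G, hG⟩ : ∃ G, G = Gs ν U k := ⟨_, rfl⟩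
  have g1 : G = Complex.I / 2 * (1 - s k) * ((1 - U k) / (1 - U k * s k)) := by
    have h1 : Gs ν U k = (Complex.I / 2) * ((1 + U k * csym ν U k - csym ν U k) * (1 - U k)) := rfl
    rw [hG, h1, p5]
    field_simp
    ring
  -- the integral
  have hwb : ∀ a, ‖wz K z k a‖ ≤ 1 := fun a => (hX.1 _ a (by rw [hxi]; linarith)).1
  have hwm : Measurable (wz K z k) := meas_cayx _
  obtain ⟨-, -, -, b4, b5⟩ := hSC1 (lev ψ r) (wz K z k) q (s k) hwm hq0 hq1.le
    (by
      have : ∀ᵐ a ∂(lev ψ r), a ∈ Set.Icc (-r) r := by rw [ae_iff]; exact hsupp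
      filter_upwards [this] with a ha
      exact hw k a ha) hsk.le (by nlinarith [norm_nonneg (s k)])
  rw [← u1 k] at b5 b4
  have g2 : G = Complex.I / 2 * (1 - s k) * (1 - (1 - s k) * Bs (lev ψ r) (wz K z k) (s k)) := by
    rw [g1, ← b5]
    congr 1
    field_simp
    ring
  have hden : ∀ a, 1 - wz K z k a * s k ≠ 0 := by
    intro a h
    have h1 : wz K z k a * s k = 1 := (sub_eq_zero.1 h).symm
    have h2 : ‖wz K z k a * s k‖ < 1 := by
      rw [norm_mul]
      nlinarith [hwb a, norm_nonneg (s k)]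
    rw [h1, norm_one] at h2
    exact lt_irrefl _ h2
  have hSe : (Se (s k)).im ≤ 0 := Se_im hsk
  have hne : ∀ a : ℝ, ((K k : ℂ) - z + a) + Se (s k) ≠ 0 := by
    intro a h
    have := congrArg Complex.im h
    simp at this
    linarith
  have hne2 : ∀ a : ℝ, ((K k : ℂ) - z + a) - Complex.I ≠ 0 := by
    intro a h
    have := congrArg Complex.im h
    simp at this
    linarith
  have hFm : Measurable fun a => wz K z k a / (1 - wz K z k a * s k) :=
    hwm.div (measurable_const.sub (hwm.mul_const _))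
  have hFi : Integrable (fun a => wz K z k a / (1 - wz K z k a * s k)) (lev ψ r) := by
    refine Integrable.of_bound hFm.aestronglyMeasurable (1 / (1 - ‖s k‖)) (ae_of_all _ fun a => ?_)
    rw [norm_div]
    have h1 : ‖(1 : ℂ)‖ - ‖wz K z k a * s k‖ ≤ ‖1 - wz K z k a * s k‖ := norm_sub_norm_le _ _
    rw [norm_one, norm_mul] at h1
    have h2 : 1 - ‖s k‖ ≤ ‖1 - wz K z k a * s k‖ := by
      nlinarith [hwb a, norm_nonneg (s k)]
    exact div_le_div₀ zero_le_one (hwb a) (by linarith) h2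
  have g3 : G = ∫ a, 1 / (((K k : ℂ) - z + a) + Se (s k)) ∂(lev ψ r) := by
    have h1 : ∀ a : ℝ, 1 / (((K k : ℂ) - z + a) + Se (s k))
        = Complex.I / 2 * (1 - s k) * (1 - (1 - s k) * (wz K z k a / (1 - wz K z k a * s k))) :=
      fun a => (alg1 (hden a) hs1 (hne a) (hne2 a) rfl).symm
    simp_rw [h1]
    rw [integral_const_mul, integral_sub (integrable_const _) (hFi.const_mul _),
      integral_const_mul, integral_const]
    simp only [probReal_univ, one_smul]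
    exact g2
  obtain ⟨w0, hw0⟩ : ∃ w0, w0 = ((K k : ℂ) - z + Se (s k)) / r := ⟨_, rfl⟩
  have hr' : (r : ℂ) ≠ 0 := by exact_mod_cast hr.ne'
  have hw0i : w0.im < 0 := by
    rw [hw0, Complex.div_ofReal_im, Complex.add_im, hxi]
    apply div_neg_of_neg_of_pos _ hr
    linarith
  obtain ⟨J, hJ⟩ : ∃ J, J = ∫ φ in Set.Ioc (0 : ℝ) 1, 1 / (w0 + (ψ (φ : UnitAddCircle) : ℂ)) :=
    ⟨_, rfl⟩
  have g4 : G = J / r := by
    rw [g3, lev_integral ψ r, hJ, ← integral_div]
    · refine integral_congr_ae (ae_of_all _ fun φ => ?_)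
      simp only []
      rw [hw0]
      push_cast
      rw [div_div]
      congr 1
      field_simp
      ring
    · have h1 : Measurable fun a : ℝ => (a : ℂ) := Complex.measurable_ofReal
      exact measurable_const.div ((measurable_const.add h1).add measurable_const)
  obtain ⟨j1, j2⟩ := hψ.eqn w0 hw0i
  rw [← hJ] at j1 j2
  have hJ0 : J ≠ 0 := by
    intro h
    rw [h] at j2
    simp at j2
  have hJi : 0 < J.im := by
    have h1 : w0 = J / 4 + 1 / J := by
      field_simp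
      linear_combination (-4 : ℂ) * j2
    have h2 : w0.im = J.im * (1 / 4 - 1 / ‖J‖ ^ 2) := by
      rw [h1, Complex.add_im, one_div, Complex.inv_im, Complex.normSq_eq_norm_sq,
        show (4 : ℂ) = ((4 : ℝ) : ℂ) by norm_num, Complex.div_ofReal_im]
      ring
    by_contra hcon
    push Not at hcon
    have h3 : 1 / 4 ≤ 1 / ‖J‖ ^ 2 := by
      apply one_div_le_one_div_of_le
      · have := norm_pos_iff.2 hJ0
        positivity
      · nlinarith [norm_nonneg J]
    have h4 : 0 ≤ w0.im := by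
      rw [h2]
      nlinarith
    linarith
  have hGi : 0 < G.im := by
    rw [g4, Complex.div_ofReal_im]
    positivity
  refine ⟨hu1, by rw [← hG]; exact hGi, ?_⟩
  rw [← hG]
  have heq : (r : ℂ) ^ 2 / 4 * G ^ 2 - ((K k : ℂ) - z + Se (s k)) * G + 1 = 0 := by
    have h1 : (K k : ℂ) - z + Se (s k) = w0 * r := by
      rw [hw0, div_mul_cancel₀ _ hr']
    rw [h1, g4]
    field_simp
    linear_combination (4 : ℂ) * j2
  have h5 := alg2 hu1 hs1 b4 g1 heq
  have h6 := congrArg Complex.im h5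
  rw [Complex.I_mul_im, re_cay _ hu1, Complex.sub_im, hxi] at h6
  have h7 : ((r : ℂ) ^ 2 / 4 * G).im = r ^ 2 / 4 * G.im := by
    have : ((r : ℂ) ^ 2 / 4) = ((r ^ 2 / 4 : ℝ) : ℂ) := by push_cast; ring
    rw [this, Complex.im_ofReal_mul]
  rw [h7] at h6
  linarith

end

end Pool.Agent.U281.GEN
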